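import Pool.Agent.Y59.LA.Pair

set_option autoImplicit false

/-!
Assembly: Cayley graphs whose generators are arranged in pairs.
-/

namespace Pool.Agent.Y59.LA

open Finset SimpleGraph H931R3.LA Pool.Agent.W111.LAR Pool.Agent.TH486.LAC

variable {Γ : Type} [Group Γ]

theorem pgr_self_deg [Finite Γ] (s : Γ) (g : Γ) : ((pgr s s).neighborSet g).ncard ≤ 2 := by
  have hsub : (pgr s s).neighborSet g ⊆ {g * s, g * s⁻¹} := by
    rintro h ⟨_, hh⟩
    have h1 : h = g * s ∨ g = h * s := by tauto
    rcases h1 with h1 | h1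
    · left; exact h1
    · right
      rw [Set.mem_singleton_iff, h1]
      group
  refine le_trans (Set.ncard_le_ncard hsub (Set.toFinite _)) ?_
  exact Set.ncard_insert_le _ _ |>.trans (by simp)

/-- The pairs of generators give the load criterion. -/
theorem ld_pairs [Finite Γ] {κ : Type} [Fintype κ] (x : κ → Γ) (π : κ → κ)
    (hπ : ∀ k, π (π k) = k)
    (hPD : ∀ k, π k ≠ k →
      PD (x k) (x (π k)) (Nat.card (Subgroup.closure {x k, x (π k)} : Subgroup Γ)))
    (hload : ∑ k, (2 : ℝ) / Nat.card (Subgroup.closure {x k, x (π k)} : Subgroup Γ) ≤ 1)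
    (G : SimpleGraph Γ) (hG : ∀ v w, G.Adj v w ↔ v ≠ w ∧ ∃ k, w = v * x k ∨ v = w * x k) :
    LD G (Fintype.card κ) := by
  classical
  have hex : ∀ k, ∃ P Q : SimpleGraph Γ, π k ≠ k → (∀ v, (P.neighborSet v).ncard ≤ 2) ∧
      (∀ v, (Q.neighborSet v).ncard ≤ 2) ∧
      (∀ v, Nat.card (Subgroup.closure {x k, x (π k)} : Subgroup Γ) ≤ csize P v) ∧
      (∀ v, Nat.card (Subgroup.closure {x k, x (π k)} : Subgroup Γ) ≤ csize Q v) ∧
      P ⊔ Q = pgr (x k) (x (π k)) := by
    intro k
    by_cases h : π k = k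
    · exact ⟨⊥, ⊥, fun h' => absurd h h'⟩
    · obtain ⟨P, Q, h1⟩ := hPD k h
      exact ⟨P, Q, fun _ => h1⟩
  choose F1 F2 hF using hex
  let code : κ → ℕ := fun k => (Fintype.equivFin κ k : ℕ)
  have hcode : ∀ k l, code k = code l → k = l := fun k l h =>
    (Fintype.equivFin κ).injective (Fin.ext h)
  let P : κ → SimpleGraph Γ := fun k => if π k = k then pgr (x k) (x k) else
    if code k < code (π k) then F1 k else F2 (π k)
  have hP0 : ∀ k, π k = k → P k = pgr (x k) (x k) := fun k h => if_pos h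
  have hP1 : ∀ k, π k ≠ k → code k < code (π k) → P k = F1 k := fun k h h' => by
    show (if _ then _ else _) = _
    rw [if_neg h, if_pos h']
  have hP2 : ∀ k, π k ≠ k → ¬ code k < code (π k) → P k = F2 (π k) := fun k h h' => by
    show (if _ then _ else _) = _
    rw [if_neg h, if_neg h']
  have hne : ∀ k, π k ≠ k → π (π k) ≠ π k := fun k h h' => by
    rw [hπ] at h'; exact h h'.symm
  have hdeg : ∀ k v, ((P k).neighborSet v).ncard ≤ 2 := by
    intro k v
    by_cases h : π k = k
    · rw [hP0 k h]; exact pgr_self_deg _ _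
    · by_cases h' : code k < code (π k)
      · rw [hP1 k h h']; exact (hF k h).1 v
      · rw [hP2 k h h']; exact (hF (π k) (hne k h)).2.1 v
  have hsize : ∀ k v, Nat.card (Subgroup.closure {x k, x (π k)} : Subgroup Γ) ≤
      csize (P k) v := by
    intro k v
    by_cases h : π k = k
    · rw [hP0 k h, h]; exact pgr_size v
    · by_cases h' : code k < code (π k)
      · rw [hP1 k h h']; exact (hF k h).2.2.1 v
      · rw [hP2 k h h']
        have h1 := (hF (π k) (hne k h)).2.2.2.1 v
        rwa [hπ, Set.pair_comm] at h1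
  have hle : ∀ k v w, (P k).Adj v w → (pgr (x k) (x (π k))).Adj v w := by
    intro k v w hadj
    by_cases h : π k = k
    · rw [hP0 k h] at hadj
      rw [h]; exact hadj
    · by_cases h' : code k < code (π k)
      · rw [hP1 k h h'] at hadj
        rw [← (hF k h).2.2.2.2]
        exact Or.inl hadj
      · rw [hP2 k h h'] at hadj
        have h1 : (F1 (π k) ⊔ F2 (π k)).Adj v w := Or.inr hadj
        rw [(hF (π k) (hne k h)).2.2.2.2, hπ] at h1
        exact ⟨h1.1, by have h2 := h1.2; tauto⟩
  have hge : ∀ k v w, (pgr (x k) (x (π k))).Adj v w → ∃ l, (P l).Adj v w := by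
    intro k v w hadj
    by_cases h : π k = k
    · exact ⟨k, by rw [hP0 k h]; rw [h] at hadj; exact hadj⟩
    · by_cases h' : code k < code (π k)
      · rw [← (hF k h).2.2.2.2] at hadj
        rcases hadj with hadj | hadj
        · exact ⟨k, by rw [hP1 k h h']; exact hadj⟩
        · refine ⟨π k, ?_⟩
          rw [hP2 (π k) (hne k h) (by rw [hπ]; omega), hπ]
          exact hadj
      · have h1 : (pgr (x (π k)) (x (π (π k)))).Adj v w := by
          rw [hπ]; exact ⟨hadj.1, by have := hadj.2; tauto⟩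
        have h2 : code (π k) < code (π (π k)) := by
          rw [hπ]
          have : code k ≠ code (π k) := fun h3 => h (hcode _ _ h3).symm
          omega
        rw [← (hF (π k) (hne k h)).2.2.2.2] at h1
        rcases h1 with h1 | h1
        · exact ⟨π k, by rw [hP1 (π k) (hne k h) h2]; exact h1⟩
        · refine ⟨k, ?_⟩
          rw [hP2 k h h']
          exact h1
  refine ⟨κ, inferInstance, P, rfl, hdeg, ?_, ?_⟩
  · intro v
    refine le_trans (sum_le_sum fun k _ => ?_) hload
    have hpos : (0 : ℝ) < Nat.card (Subgroup.closure {x k, x (π k)} : Subgroup Γ) := by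
      exact_mod_cast Nat.card_pos
    exact div_le_div_of_nonneg_left (by norm_num) hpos (by exact_mod_cast hsize k v)
  · ext v w
    rw [iSup_adj, hG]
    constructor
    · rintro ⟨h0, k, h | h⟩
      · exact hge k v w ⟨h0, Or.inl h⟩
      · exact hge k v w ⟨h0, Or.inr (Or.inr (Or.inl h))⟩
    · rintro ⟨k, hk⟩
      obtain ⟨h0, h⟩ := hle k v w hk
      refine ⟨h0, ?_⟩
      rcases h with h | h | h | h
      · exact ⟨k, Or.inl h⟩
      · exact ⟨π k, Or.inl h⟩
      · exact ⟨k, Or.inr h⟩
      · exact ⟨π k, Or.inr h⟩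

end Pool.Agent.Y59.LA
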