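import Mathlib.GroupTheory.Perm.Cycle.Type
import Mathlib.Data.Fintype.Perm
import Mathlib.Tactic

set_option autoImplicit false

/-!
Maximum matchings as involutions.
-/

namespace Pool.Agent.Y59.LA

open Finset Equiv

variable {κ : Type} [Fintype κ] [DecidableEq κ]

/-- Involutions all of whose two-cycles are good. -/
def GI (good : κ → κ → Prop) (π : Equiv.Perm κ) : Prop :=
  (∀ k, π (π k) = k) ∧ ∀ k, π k ≠ k → good k (π k)

theorem gi_add {good : κ → κ → Prop} (hs : ∀ a b, good a b → good b a) {π : Equiv.Perm κ}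
    (hπ : GI good π) {u v : κ} (huv : u ≠ v) (hu : π u = u) (hv : π v = v) (hg : good u v) :
    GI good (π * swap u v) ∧ π.support.card < (π * swap u v).support.card := by
  have hval : ∀ k, (π * swap u v) k = if k = u then v else if k = v then u else π k := by
    intro k
    rw [Perm.mul_apply]
    by_cases h1 : k = u
    · rw [if_pos h1, h1, swap_apply_left, hv]
    · by_cases h2 : k = v
      · rw [if_neg h1, if_pos h2, h2, swap_apply_right, hu]
      · rw [if_neg h1, if_neg h2, swap_apply_of_ne_of_ne h1 h2]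
  have hne : ∀ k, k ≠ u → k ≠ v → π k ≠ u ∧ π k ≠ v := by
    intro k h1 h2
    refine ⟨fun h => h1 ?_, fun h => h2 ?_⟩
    · rw [← hπ.1 k, h, hu]
    · rw [← hπ.1 k, h, hv]
  refine ⟨⟨?_, ?_⟩, ?_⟩
  · intro k
    rw [hval, hval]
    by_cases h1 : k = u
    · rw [if_pos h1, if_neg huv.symm, if_pos rfl, h1]
    · by_cases h2 : k = v
      · rw [if_neg h1, if_pos h2, if_pos rfl, h2]
      · obtain ⟨h3, h4⟩ := hne k h1 h2
        rw [if_neg h1, if_neg h2, if_neg h3, if_neg h4, hπ.1]
  · intro k hk
    rw [hval] at hk ⊢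
    by_cases h1 : k = u
    · rw [if_pos h1, h1]; exact hg
    · by_cases h2 : k = v
      · rw [if_neg h1, if_pos h2, h2]; exact hs _ _ hg
      · rw [if_neg h1, if_neg h2] at hk ⊢
        exact hπ.2 k hk
  · apply card_lt_card
    rw [ssubset_iff_of_subset]
    · refine ⟨u, ?_, ?_⟩
      · rw [Perm.mem_support, hval, if_pos rfl]; exact huv.symm
      · rw [Perm.mem_support]; exact fun h => h hu
    · intro k hk
      rw [Perm.mem_support] at hk ⊢
      have h1 : k ≠ u := fun h => hk (by rw [h, hu])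
      have h2 : k ≠ v := fun h => hk (by rw [h, hv])
      rw [hval, if_neg h1, if_neg h2]
      exact hk

theorem gi_conj {good : κ → κ → Prop} (hs : ∀ a b, good a b → good b a) {π : Equiv.Perm κ}
    (hπ : GI good π) {v x : κ} (hv : π v = v) (hx : π x ≠ x) (hg : good v (π x)) :
    GI good (swap x v * π * swap x v) ∧ (swap x v * π * swap x v).support.card = π.support.card ∧
      (swap x v * π * swap x v) x = x ∧
      ∀ k, k ≠ v → k ≠ x → k ≠ π x → (swap x v * π * swap x v) k = π k := by
  have hxv : x ≠ v := fun h => hx (by rw [h, hv])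
  have hpv : π x ≠ v := fun h => hxv (by rw [← hπ.1 x, h, hv])
  have h0 : ∀ k, (swap x v * π * swap x v) k = swap x v (π (swap x v k)) := fun k => rfl
  have hvx : (swap x v * π * swap x v) v = π x := by
    rw [h0, swap_apply_right, swap_apply_of_ne_of_ne hx hpv]
  have hpx : (swap x v * π * swap x v) (π x) = v := by
    rw [h0, swap_apply_of_ne_of_ne hx hpv, hπ.1, swap_apply_left]
  have hxx : (swap x v * π * swap x v) x = x := by
    rw [h0, swap_apply_left, hv, swap_apply_right]
  have hk : ∀ k, k ≠ v → k ≠ x → k ≠ π x → (swap x v * π * swap x v) k = π k := by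
    intro k h1 h2 h3
    rw [h0, swap_apply_of_ne_of_ne h2 h1, swap_apply_of_ne_of_ne]
    · intro h; apply h3; rw [← h, hπ.1]
    · intro h; apply h1; rw [← hπ.1 k, h, hv]
  refine ⟨⟨?_, ?_⟩, ?_, hxx, hk⟩
  · intro k
    rw [h0, h0, swap_apply_self, hπ.1, swap_apply_self]
  · intro k hk'
    by_cases h1 : k = v
    · rw [h1, hvx]; exact hg
    · by_cases h2 : k = x
      · exact absurd (h2 ▸ hxx) hk'
      · by_cases h3 : k = π x
        · rw [h3, hpx]; exact hs _ _ hg
        · rw [hk k h1 h2 h3] at hk' ⊢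
          exact hπ.2 k hk'
  · have : swap x v * π * swap x v = swap x v * π * (swap x v)⁻¹ := by rw [swap_inv]
    rw [this, Perm.card_support_conj]

/-- A maximum matching. -/
theorem exists_mm (good : κ → κ → Prop) (hs : ∀ a b, good a b → good b a) :
    ∃ π : Equiv.Perm κ, (∀ k, π (π k) = k) ∧ (∀ k, π k ≠ k → good k (π k)) ∧
      (∀ u v, u ≠ v → π u = u → π v = v → ¬ good u v) ∧
      (∀ u v x, u ≠ v → π u = u → π v = v → π x ≠ x → good u x → ¬ good v (π x)) := by
  classical
  obtain ⟨π, hπ, hmax⟩ := exists_max_image (univ.filter (fun π : Equiv.Perm κ => GI good π))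
    (fun π => π.support.card) ⟨1, by
      rw [mem_filter]
      exact ⟨mem_univ _, fun k => rfl, fun k hk => absurd rfl hk⟩⟩
  have hπ : GI good π := (mem_filter.1 hπ).2
  have hmax : ∀ π', GI good π' → π'.support.card ≤ π.support.card := fun π' h =>
    hmax π' (mem_filter.2 ⟨mem_univ _, h⟩)
  refine ⟨π, hπ.1, hπ.2, ?_, ?_⟩
  · intro u v huv hu hv hg
    obtain ⟨h1, h2⟩ := gi_add hs hπ huv hu hv hg
    exact absurd (hmax _ h1) (not_le.2 h2)
  · intro u v x huv hu hv hx hux hvx
    obtain ⟨h1, h2, h3, h4⟩ := gi_conj hs hπ hv hx hvx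
    have hux' : u ≠ x := fun h => hx (by rw [← h, hu])
    have hup : u ≠ π x := fun h => hux' (by rw [← hπ.1 x, ← h, hu])
    have hu' := h4 u huv hux' hup
    rw [hu] at hu'
    obtain ⟨h5, h6⟩ := gi_add hs h1 hux' hu' h3 hux
    have h7 := hmax _ h5
    omega

/-- Few bad partners: at most one fixed point. -/
theorem mm_dirac {good : κ → κ → Prop} {π : Equiv.Perm κ} (h1 : ∀ k, π (π k) = k)
    (h3 : ∀ u v, u ≠ v → π u = u → π v = v → ¬ good u v)
    (h4 : ∀ u v x, u ≠ v → π u = u → π v = v → π x ≠ x → good u x → ¬ good v (π x))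
    (hbad : ∀ (k : κ) (B : Finset κ), (∀ l ∈ B, l ≠ k ∧ ¬ good k l) →
      2 * B.card + 1 ≤ Fintype.card κ) {u v : κ} (hu : π u = u) (hv : π v = v) : u = v := by
  classical
  by_contra huv
  have hcount : ∀ k : κ, Fintype.card κ ≤ 2 * (univ.filter (fun l => l ≠ k ∧ good k l)).card + 1 := by
    intro k
    have e1 := hbad k (univ.filter (fun l => l ≠ k ∧ ¬ good k l)) (fun l hl => (mem_filter.1 hl).2)
    have e2 : (univ.filter (fun l => l ≠ k ∧ good k l)).card +
        (univ.filter (fun l => l ≠ k ∧ ¬ good k l)).card = (univ.erase k).card := by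
      rw [← card_union_of_disjoint]
      · congr 1
        ext l
        simp only [mem_union, mem_filter, mem_univ, true_and, mem_erase, and_true]
        tauto
      · rw [Finset.disjoint_left]
        intro l hl hl'
        exact (mem_filter.1 hl').2.2 (mem_filter.1 hl).2.2
    rw [card_erase_of_mem (mem_univ k), card_univ] at e2
    have e3 : 0 < Fintype.card κ := Fintype.card_pos_iff.2 ⟨k⟩
    omega
  set Nu := univ.filter (fun l => l ≠ u ∧ good u l) with hNu
  set Nv := univ.filter (fun l => l ≠ v ∧ good v l) with hNv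
  have hfix : ∀ k, k ∈ Nu → π k ≠ k := by
    intro k hk h
    obtain ⟨-, hk1, hk2⟩ := mem_filter.1 hk
    exact h3 u k hk1.symm hu h hk2
  have hfixv : ∀ k, k ∈ Nv → π k ≠ k := by
    intro k hk h
    obtain ⟨-, hk1, hk2⟩ := mem_filter.1 hk
    exact h3 v k hk1.symm hv h hk2
  have hdisj : Disjoint (Nu.image π) Nv := by
    rw [Finset.disjoint_left]
    intro l hl hl'
    obtain ⟨k, hk, rfl⟩ := mem_image.1 hl
    exact h4 u v k huv hu hv (hfix k hk) (mem_filter.1 hk).2.2 (mem_filter.1 hl').2.2
  have hsub : Nu.image π ∪ Nv ⊆ (univ.erase u).erase v := by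
    intro l hl
    have hl' : π l ≠ l := by
      rcases mem_union.1 hl with h | h
      · obtain ⟨k, hk, rfl⟩ := mem_image.1 h
        intro h'
        exact hfix k hk (π.injective h')
      · exact hfixv l h
    rw [mem_erase, mem_erase]
    exact ⟨fun h => hl' (h ▸ hv), fun h => hl' (h ▸ hu), mem_univ _⟩
  have e1 := card_le_card hsub
  rw [card_union_of_disjoint hdisj, card_image_of_injective _ π.injective,
    card_erase_of_mem (by rw [mem_erase]; exact ⟨Ne.symm huv, mem_univ _⟩),
    card_erase_of_mem (mem_univ _), card_univ] at e1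
  have e2 : Fintype.card κ ≤ 2 * Nu.card + 1 := hcount u
  have e3 : Fintype.card κ ≤ 2 * Nv.card + 1 := hcount v
  have e4 : 1 < Fintype.card κ := Fintype.one_lt_card_iff.2 ⟨u, v, huv⟩
  omega

end Pool.Agent.Y59.LA
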