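import Pool.Agent.Y59.LA.Asm
import Pool.Agent.Y59.LA.Match

set_option autoImplicit false

/-!
The load criterion for commuting pairs, and consequences for commuting connection sets.
-/

namespace Pool.Agent.Y59.LA

open Finset SimpleGraph H931R3.LA Pool.Agent.W111.LAR Pool.Agent.TH486.LAC

variable {Γ : Type} [Group Γ]

/-- The order of the subgroup generated by two elements. -/
noncomputable def gn (s t : Γ) : ℕ := Nat.card (Subgroup.closure {s, t} : Subgroup Γ)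

theorem gn_comm (s t : Γ) : gn s t = gn t s := by
  unfold gn; rw [Set.pair_comm]

theorem closure_inv_left (s t : Γ) :
    (Subgroup.closure {s⁻¹, t} : Subgroup Γ) = Subgroup.closure {s, t} := by
  apply le_antisymm
  · rw [Subgroup.closure_le]
    rintro x (rfl | hx)
    · exact inv_mem (Subgroup.subset_closure (by simp))
    · rw [Set.mem_singleton_iff] at hx
      rw [hx]; exact Subgroup.subset_closure (by simp)
  · rw [Subgroup.closure_le]
    rintro x (rfl | hx)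
    · rw [← inv_inv x]
      exact inv_mem (Subgroup.subset_closure (by simp))
    · rw [Set.mem_singleton_iff] at hx
      rw [hx]; exact Subgroup.subset_closure (by simp)

theorem gn_inv_left (s t : Γ) : gn s⁻¹ t = gn s t := by
  unfold gn; rw [closure_inv_left]

theorem gn_inv_right (s t : Γ) : gn s t⁻¹ = gn s t := by
  rw [gn_comm, gn_inv_left, gn_comm]

theorem gn_pos [Finite Γ] (s t : Γ) : 0 < gn s t := Nat.card_pos

theorem gn_ge [Finite Γ] (s t : Γ) : orderOf s ≤ gn s t := by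
  unfold gn
  rw [← Nat.card_zpowers]
  exact Subgroup.card_le_of_le (Subgroup.zpowers_le.2 (Subgroup.subset_closure (by simp)))

/-- Halving a symmetric set without involutions. -/
theorem halve' [Finite Γ] [DecidableEq Γ] (S : Finset Γ) (hinv : ∀ s ∈ S, s⁻¹ ∈ S)
    (hno : ∀ s ∈ S, s * s ≠ 1) :
    ∃ T ⊆ S, (∀ s ∈ S, s ∈ T ∨ s⁻¹ ∈ T) ∧ (∀ s ∈ T, s⁻¹ ∉ T) ∧ S.card = 2 * T.card ∧
      ∀ f : Γ → ℝ, (∀ s, f s⁻¹ = f s) → ∑ s ∈ S, f s = 2 * ∑ s ∈ T, f s := by
  have := Fintype.ofFinite Γ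
  obtain ⟨T, h1, h2, h3, h4⟩ := halve S hinv hno
  refine ⟨T, h1, h2, ?_, h3, h4⟩
  intro s hs hs'
  have hsub : S ⊆ T ∪ ((T.erase s⁻¹).image (fun x => x⁻¹)) := by
    intro x hx
    rcases h2 x hx with h | h
    · exact mem_union_left _ h
    · by_cases hxs : x = s
      · rw [hxs]; exact mem_union_left _ hs
      · refine mem_union_right _ (mem_image.2 ⟨x⁻¹, mem_erase.2 ⟨?_, h⟩, inv_inv x⟩)
        intro h5
        exact hxs (inv_injective h5)
  have h5 := card_le_card hsub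
  have h6 := card_union_le T ((T.erase s⁻¹).image (fun x => x⁻¹))
  have h7 : ((T.erase s⁻¹).image (fun x => x⁻¹)).card ≤ T.card - 1 :=
    card_image_le.trans (by rw [card_erase_of_mem hs'])
  have h8 : 0 < T.card := card_pos.2 ⟨s, hs⟩
  omega

theorem odd_facts [Finite Γ] {S : Finset Γ} {G : SimpleGraph Γ}
    (hG : ∀ g h, G.Adj g h ↔ g⁻¹ * h ∈ S) (hodd : ∀ s ∈ S, Odd (orderOf s)) :
    (1 : Γ) ∉ S ∧ (∀ s ∈ S, s⁻¹ ∈ S) ∧ (∀ s ∈ S, s * s ≠ 1) := by
  have hone : (1 : Γ) ∉ S := by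
    intro h
    exact G.irrefl ((hG 1 1).2 (by simpa using h))
  refine ⟨hone, ?_, ?_⟩
  · intro s hs
    have h1 : G.Adj 1 s := (hG 1 s).2 (by simpa using hs)
    have h2 := (hG s 1).1 h1.symm
    simpa using h2
  · intro s hs h
    have h1 : orderOf s ∣ 2 := orderOf_dvd_of_pow_eq_one (by rw [pow_two]; exact h)
    have h2 := hodd s hs
    rcases (Nat.dvd_prime Nat.prime_two).1 h1 with h3 | h3
    · rw [orderOf_eq_one_iff] at h3
      exact hone (h3 ▸ hs)
    · rw [h3] at h2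
      exact absurd h2 (by decide)

theorem adj_half {S T : Finset Γ} {G : SimpleGraph Γ} (hG : ∀ g h, G.Adj g h ↔ g⁻¹ * h ∈ S)
    (hTS : T ⊆ S) (hinv : ∀ s ∈ S, s⁻¹ ∈ S) (hT : ∀ s ∈ S, s ∈ T ∨ s⁻¹ ∈ T) (v w : Γ) :
    G.Adj v w ↔ v ≠ w ∧ ∃ k : T, w = v * k.1 ∨ v = w * k.1 := by
  constructor
  · intro h
    refine ⟨h.ne, ?_⟩
    rcases hT _ ((hG v w).1 h) with h1 | h1
    · exact ⟨⟨_, h1⟩, Or.inl (by simp)⟩
    · exact ⟨⟨_, h1⟩, Or.inr (by simp)⟩
  · rintro ⟨-, k, h | h⟩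
    · rw [hG, h]
      simpa using hTS k.2
    · rw [hG, h]
      simpa using hinv _ (hTS k.2)

/-- The criterion on a half system. -/
theorem ld_half [Finite Γ] {S T : Finset Γ} {G : SimpleGraph Γ}
    (hG : ∀ g h, G.Adj g h ↔ g⁻¹ * h ∈ S) (hodd : ∀ s ∈ S, Odd (orderOf s))
    (hTS : T ⊆ S) (hT : ∀ s ∈ S, s ∈ T ∨ s⁻¹ ∈ T) (hcard : S.card = 2 * T.card)
    (π : T → T) (hπ : ∀ k, π (π k) = k) (hc : ∀ k, π k ≠ k → Commute k.1 (π k).1)
    (hload : ∑ k : T, (2 : ℝ) / gn k.1 (π k).1 ≤ 1) : LD G (S.card / 2) := by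
  obtain ⟨hone, hinv, -⟩ := odd_facts hG hodd
  have h1 := ld_pairs (fun k : T => k.1) π hπ (by
    intro k hk
    exact pd_comm (hc k hk) (hodd _ (hTS k.2)) (hodd _ (hTS (π k).2))
      (fun h => hone (h ▸ hTS k.2)) (fun h => hone (h ▸ hTS (π k).2))) hload G
    (adj_half hG hTS hinv hT)
  rw [Fintype.card_coe] at h1
  have h2 : S.card / 2 = T.card := by omega
  rwa [h2]

/-- The general criterion. -/
theorem ld_sigma [Finite Γ] (S : Finset Γ) (G : SimpleGraph Γ)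
    (hG : ∀ g h, G.Adj g h ↔ g⁻¹ * h ∈ S) (hodd : ∀ s ∈ S, Odd (orderOf s)) (σ : Γ → Γ)
    (hσ : ∀ s ∈ S, σ s ∈ S ∧ σ (σ s) = s ∧ σ s⁻¹ = (σ s)⁻¹ ∧ Commute s (σ s))
    (hload : ∑ s ∈ S, (1 : ℝ) / Nat.card (Subgroup.closure {s, σ s} : Subgroup Γ) ≤ 1) :
    LD G (S.card / 2) := by
  classical
  obtain ⟨hone, hinv, hno⟩ := odd_facts hG hodd
  obtain ⟨T, hTS, hT, hT', hcard, hf⟩ := halve' S hinv hno
  have hmem : ∀ s ∈ T, (if σ s ∈ T then σ s else (σ s)⁻¹) ∈ T := by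
    intro s hs
    split_ifs with h
    · exact h
    · rcases hT _ (hσ s (hTS hs)).1 with h1 | h1
      · exact absurd h1 h
      · exact h1
  let π : T → T := fun k => ⟨if σ k.1 ∈ T then σ k.1 else (σ k.1)⁻¹, hmem k.1 k.2⟩
  have hval : ∀ k : T, (π k).1 = if σ k.1 ∈ T then σ k.1 else (σ k.1)⁻¹ := fun k => rfl
  have hπ : ∀ k, π (π k) = k := by
    intro k
    apply Subtype.ext
    obtain ⟨h1, h2, h3, h4⟩ := hσ k.1 (hTS k.2)
    by_cases h : σ k.1 ∈ T
    · have e : (π k).1 = σ k.1 := by rw [hval, if_pos h]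
      rw [hval, e, h2, if_pos k.2]
    · have e : (π k).1 = (σ k.1)⁻¹ := by rw [hval, if_neg h]
      obtain ⟨-, -, h5, -⟩ := hσ _ h1
      rw [h2] at h5
      rw [hval, e, h5, if_neg (hT' _ k.2), inv_inv]
  refine ld_half hG hodd hTS hT hcard π hπ ?_ ?_
  · intro k _
    rw [hval]
    obtain ⟨-, -, -, h4⟩ := hσ k.1 (hTS k.2)
    split_ifs
    · exact h4
    · exact h4.inv_right
  · let f : Γ → ℝ := fun s => if s ∈ S then (1 : ℝ) / gn s (σ s) else 0
    have hfi : ∀ s, f s⁻¹ = f s := by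
      intro s
      by_cases hs : s ∈ S
      · show (if _ then _ else _) = (if _ then _ else _)
        rw [if_pos hs, if_pos (hinv s hs), (hσ s hs).2.2.1, gn_inv_left, gn_inv_right]
      · have hs' : s⁻¹ ∉ S := fun h => hs (by simpa using hinv _ h)
        show (if _ then _ else _) = (if _ then _ else _)
        rw [if_neg hs, if_neg hs']
    have h1 := hf f hfi
    have h2 : ∑ s ∈ S, f s = ∑ s ∈ S, (1 : ℝ) / Nat.card (Subgroup.closure {s, σ s} : Subgroup Γ) :=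
      sum_congr rfl fun s hs => if_pos hs
    have h3 : ∑ k : T, (2 : ℝ) / gn k.1 (π k).1 = 2 * ∑ s ∈ T, f s := by
      rw [mul_sum, ← sum_coe_sort T]
      refine sum_congr rfl fun k _ => ?_
      have e1 : f k.1 = 1 / gn k.1 (σ k.1) := if_pos (hTS k.2)
      have e2 : gn k.1 (π k).1 = gn k.1 (σ k.1) := by
        rw [hval]
        split_ifs
        · rfl
        · exact gn_inv_right _ _
      rw [e1, e2]
      ring
    rw [h3, ← h1, h2]
    exact hload

end Pool.Agent.Y59.LA
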