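import Pool.Agent.Y59.LA.Comm

set_option autoImplicit false

/-!
Commuting connection sets: pairs from maximum matchings.
-/

namespace Pool.Agent.Y59.LA

open Finset SimpleGraph H931R3.LA Pool.Agent.W111.LAR Pool.Agent.TH486.LAC

variable {Γ : Type} [Group Γ]

theorem gn_self [Finite Γ] (s : Γ) : gn s s = orderOf s := by
  unfold gn
  rw [← Nat.card_zpowers, Set.pair_eq_singleton, Subgroup.zpowers_eq_closure]

/-- Each element has few bad partners. -/
theorem ld_dirac [Finite Γ] (S : Finset Γ) (G : SimpleGraph Γ)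
    (hG : ∀ g h, G.Adj g h ↔ g⁻¹ * h ∈ S) (hodd : ∀ s ∈ S, Odd (orderOf s))
    (hcomm : ∀ s ∈ S, ∀ t ∈ S, Commute s t) (L m : ℕ) (hm : 0 < m) (hmL : m ≤ L)
    (hord : ∀ s ∈ S, m ≤ orderOf s)
    (hbad : ∀ s ∈ S, {t : Γ | t ∈ S ∧
      Nat.card (Subgroup.closure {s, t} : Subgroup Γ) < L}.ncard ≤ S.card / 2 + 1)
    (hload : ((S.card : ℝ) - 2) / L + 2 / m ≤ 1) : LD G (S.card / 2) := by
  classical
  have := Fintype.ofFinite Γ
  obtain ⟨hone, hinv, hno⟩ := odd_facts hG hodd
  obtain ⟨T, hTS, hT, hT', hcard, -⟩ := halve' S hinv hno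
  obtain ⟨π, h1, h2, h3, h4⟩ := exists_mm (κ := T) (fun k l => L ≤ gn k.1 l.1)
    (fun a b h => by rw [gn_comm]; exact h)
  have hL : (0 : ℝ) < L := by exact_mod_cast lt_of_lt_of_le hm hmL
  have hm' : (0 : ℝ) < m := by exact_mod_cast hm
  have hfix : ∀ u v, π u = u → π v = v → u = v := by
    intro u v hu hv
    refine mm_dirac (good := fun k l : T => L ≤ gn k.1 l.1) h1 h3 h4 ?_ hu hv
    intro k B hB
    rw [Fintype.card_coe]
    rcases B.eq_empty_or_nonempty with h | ⟨l0, hl0⟩
    · rw [h]
      have : 0 < T.card := card_pos.2 ⟨k.1, k.2⟩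
      simp only [card_empty]; omega
    · have hk : orderOf k.1 < L := lt_of_le_of_lt (gn_ge k.1 l0.1) (not_le.1 (hB l0 hl0).2)
      have hsub : ((((B.image Subtype.val) ∪ {k.1}) ∪
          ((B.image Subtype.val) ∪ {k.1}).image (fun x => x⁻¹) : Finset Γ) : Set Γ) ⊆
          {t : Γ | t ∈ S ∧ Nat.card (Subgroup.closure {k.1, t} : Subgroup Γ) < L} := by
        have key : ∀ t ∈ (B.image Subtype.val) ∪ {k.1}, t ∈ T ∧ gn k.1 t < L := by
          intro t ht
          rcases mem_union.1 ht with h | h
          · obtain ⟨l, hl, rfl⟩ := mem_image.1 h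
            exact ⟨l.2, not_le.1 (hB l hl).2⟩
          · rw [mem_singleton] at h
            rw [h, gn_self]
            exact ⟨k.2, hk⟩
        intro t ht
        rw [mem_coe, mem_union] at ht
        rcases ht with h | h
        · exact ⟨hTS (key t h).1, (key t h).2⟩
        · obtain ⟨x, hx, rfl⟩ := mem_image.1 h
          refine ⟨hinv _ (hTS (key x hx).1), ?_⟩
          have := gn_inv_right k.1 x
          unfold gn at this
          rw [this]
          exact (key x hx).2
      have h5 := Set.ncard_le_ncard hsub (Set.toFinite _)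
      rw [Set.ncard_coe_finset] at h5
      have hdis : Disjoint ((B.image Subtype.val) ∪ {k.1})
          (((B.image Subtype.val) ∪ {k.1}).image (fun x => x⁻¹)) := by
        have key : ∀ t ∈ (B.image Subtype.val) ∪ {k.1}, t ∈ T := by
          intro t ht
          rcases mem_union.1 ht with h | h
          · obtain ⟨l, hl, rfl⟩ := mem_image.1 h
            exact l.2
          · rw [mem_singleton] at h
            rw [h]; exact k.2
        rw [Finset.disjoint_left]
        intro t ht ht'
        obtain ⟨x, hx, rfl⟩ := mem_image.1 ht'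
        exact hT' x (key x hx) (key _ ht)
      rw [card_union_of_disjoint hdis, card_image_of_injective _ inv_injective,
        card_union_of_disjoint (by
          rw [Finset.disjoint_singleton_right]
          intro h
          obtain ⟨l, hl, hlk⟩ := mem_image.1 h
          exact (hB l hl).1 (Subtype.ext hlk)),
        card_image_of_injective _ Subtype.val_injective, card_singleton] at h5
      have h6 := hbad k.1 (hTS k.2)
      omega
  refine ld_half hG hodd hTS hT hcard π h1 (fun k _ => hcomm _ (hTS k.2) _ (hTS (π k).2)) ?_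
  have hT0 : S.card = 2 * T.card := hcard
  have hterm : ∀ k : T, π k ≠ k → (2 : ℝ) / gn k.1 (π k).1 ≤ 2 / L := by
    intro k hk
    have := h2 k hk
    exact div_le_div_of_nonneg_left (by norm_num) hL (by exact_mod_cast this)
  have hterm' : ∀ k : T, (2 : ℝ) / gn k.1 (π k).1 ≤ 2 / m := by
    intro k
    have := (hord _ (hTS k.2)).trans (gn_ge k.1 (π k).1)
    exact div_le_div_of_nonneg_left (by norm_num) hm' (by exact_mod_cast this)
  have hLm : (2 : ℝ) / L ≤ 2 / m :=
    div_le_div_of_nonneg_left (by norm_num) hm' (by exact_mod_cast hmL)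
  rcases T.eq_empty_or_nonempty with hTe | ⟨t0, ht0⟩
  · have : IsEmpty T := by
      rw [hTe]
      exact ⟨fun x => absurd x.2 (notMem_empty _)⟩
    rw [univ_eq_empty, sum_empty]
    norm_num
  · -- a point outside which everything is matched
    obtain ⟨k0, hk0⟩ : ∃ k0 : T, ∀ k, k ≠ k0 → π k ≠ k := by
      by_cases h : ∃ u, π u = u
      · obtain ⟨u, hu⟩ := h
        exact ⟨u, fun k hk h' => hk (hfix k u h' hu)⟩
      · exact ⟨⟨t0, ht0⟩, fun k _ h' => h ⟨k, h'⟩⟩
    rw [← add_sum_erase univ _ (mem_univ k0)]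
    have h5 : ∑ k ∈ univ.erase k0, (2 : ℝ) / gn k.1 (π k).1 ≤
        ∑ _k ∈ univ.erase k0, (2 : ℝ) / L :=
      sum_le_sum fun k hk => hterm k (hk0 k (mem_erase.1 hk).1)
    rw [sum_const, card_erase_of_mem (mem_univ _), card_univ, Fintype.card_coe, nsmul_eq_mul,
      Nat.cast_sub (card_pos.2 ⟨t0, ht0⟩)] at h5
    have h6 := hterm' k0
    have h7 : (((T.card : ℝ) - 1) * (2 / L)) = ((S.card : ℝ) - 2) / L := by
      rw [hT0]
      push_cast
      ring
    rw [Nat.cast_one, h7] at h5
    linarith

/-- Small order means prime order. -/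
theorem gn_small [Finite Γ] {p : ℕ} (hp : ∀ q : ℕ, q.Prime → q ∣ Nat.card Γ → p ≤ q) {s t : Γ}
    (hs : s ≠ 1) (h : gn s t < p ^ 2) :
    (gn s t).Prime ∧ Subgroup.zpowers s = Subgroup.closure {s, t} := by
  have hdvd : gn s t ∣ Nat.card Γ := Subgroup.card_subgroup_dvd_card _
  have hs' : 1 < orderOf s := by
    have h1 : orderOf s ≠ 1 := fun h => hs (orderOf_eq_one_iff.1 h)
    have h2 := orderOf_pos s
    omega
  have hge := gn_ge s t
  have hpr : (gn s t).Prime := by
    by_contra hnp
    have h1 := Nat.minFac_sq_le_self (gn_pos s t) hnp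
    have h2 : p ≤ (gn s t).minFac :=
      hp _ (Nat.minFac_prime (by omega)) ((Nat.minFac_dvd _).trans hdvd)
    have h3 : p ^ 2 ≤ (gn s t).minFac ^ 2 := Nat.pow_le_pow_left h2 2
    omega
  refine ⟨hpr, ?_⟩
  have hle : Subgroup.zpowers s ≤ Subgroup.closure {s, t} :=
    Subgroup.zpowers_le.2 (Subgroup.subset_closure (by simp))
  have h1 : orderOf s ∣ gn s t := by
    rw [← Nat.card_zpowers]
    exact Subgroup.card_dvd_of_le hle
  have h2 : orderOf s = gn s t := by
    rcases (Nat.dvd_prime hpr).1 h1 with h3 | h3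
    · omega
    · exact h3
  apply Subgroup.eq_of_le_of_card_ge hle
  rw [Nat.card_zpowers, h2]
  exact le_rfl

/-- Small degree compared with the least prime factor. -/
theorem ld_small [Finite Γ] (S : Finset Γ) (G : SimpleGraph Γ)
    (hG : ∀ g h, G.Adj g h ↔ g⁻¹ * h ∈ S) (hcomm : ∀ s ∈ S, ∀ t ∈ S, Commute s t) (p : ℕ)
    (hp3 : 3 ≤ p) (hp : ∀ q : ℕ, q.Prime → q ∣ Nat.card Γ → p ≤ q)
    (hS : S.card ≤ (p - 1) ^ 2 + 1) : LD G (S.card / 2) := by
  classical
  have := Fintype.ofFinite Γ
  have hodd : ∀ s ∈ S, Odd (orderOf s) := by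
    intro s _
    rw [← Nat.not_even_iff_odd]
    intro h
    have h1 := hp 2 Nat.prime_two (h.two_dvd.trans (orderOf_dvd_natCard s))
    omega
  obtain ⟨hone, hinv, hno⟩ := odd_facts hG hodd
  obtain ⟨T, hTS, hT, hT', hcard, -⟩ := halve' S hinv hno
  have hT1 : ∀ k : T, k.1 ≠ 1 := fun k h => hone (h ▸ hTS k.2)
  have hordp : ∀ k : T, p ≤ orderOf k.1 := by
    intro k
    have h1 : orderOf k.1 ≠ 1 := fun h => hT1 k (orderOf_eq_one_iff.1 h)
    have h2 : p ≤ (orderOf k.1).minFac :=
      hp _ (Nat.minFac_prime h1) ((Nat.minFac_dvd _).trans (orderOf_dvd_natCard _))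
    exact h2.trans (Nat.minFac_le (orderOf_pos _))
  obtain ⟨π, h1, h2, h3, h4⟩ := exists_mm (κ := T) (fun k l => p ^ 2 ≤ gn k.1 l.1)
    (fun a b h => by rw [gn_comm]; exact h)
  refine ld_half hG hodd hTS hT hcard π h1 (fun k _ => hcomm _ (hTS k.2) _ (hTS (π k).2)) ?_
  have hpR : (3 : ℝ) ≤ p := by exact_mod_cast hp3
  by_cases hfix : ∀ u v, π u = u → π v = v → u = v
  · -- at most one fixed point
    rcases T.eq_empty_or_nonempty with hTe | ⟨t0, ht0⟩
    · have : IsEmpty T := by
        rw [hTe]
        exact ⟨fun x => absurd x.2 (notMem_empty _)⟩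
      rw [univ_eq_empty, sum_empty]
      norm_num
    · obtain ⟨k0, hk0⟩ : ∃ k0 : T, ∀ k, k ≠ k0 → π k ≠ k := by
        by_cases h : ∃ u, π u = u
        · obtain ⟨u, hu⟩ := h
          exact ⟨u, fun k hk h' => hk (hfix k u h' hu)⟩
        · exact ⟨⟨t0, ht0⟩, fun k _ h' => h ⟨k, h'⟩⟩
      rw [← add_sum_erase univ _ (mem_univ k0)]
      have h5 : ∑ k ∈ univ.erase k0, (2 : ℝ) / gn k.1 (π k).1 ≤
          ∑ _k ∈ univ.erase k0, (2 : ℝ) / ((p : ℝ) ^ 2) := by
        refine sum_le_sum fun k hk => ?_
        have h6 := h2 k (hk0 k (mem_erase.1 hk).1)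
        exact div_le_div_of_nonneg_left (by norm_num) (by positivity) (by exact_mod_cast h6)
      rw [sum_const, card_erase_of_mem (mem_univ _), card_univ, Fintype.card_coe, nsmul_eq_mul,
        Nat.cast_sub (card_pos.2 ⟨t0, ht0⟩), Nat.cast_one] at h5
      have h6 : (2 : ℝ) / gn k0.1 (π k0).1 ≤ 2 / p := by
        have := (hordp k0).trans (gn_ge k0.1 (π k0).1)
        exact div_le_div_of_nonneg_left (by norm_num) (by positivity) (by exact_mod_cast this)
      have h7 : (2 : ℝ) * T.card ≤ ((p : ℝ) - 1) ^ 2 + 1 := by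
        have h8 : 2 * T.card ≤ (p - 1) ^ 2 + 1 := by omega
        have h9 : ((p - 1 : ℕ) : ℝ) = (p : ℝ) - 1 := by
          rw [Nat.cast_sub (by omega)]; norm_num
        rw [← h9]
        exact_mod_cast h8
      have h8 : ((T.card : ℝ) - 1) * (2 / (p : ℝ) ^ 2) + 2 / p ≤ 1 := by
        have h9 : ((T.card : ℝ) - 1) * (2 / (p : ℝ) ^ 2) + 2 / p =
            (2 * T.card - 2 + 2 * p) / (p : ℝ) ^ 2 := by
          field_simp
        rw [h9, div_le_one (by positivity)]
        nlinarith
      linarith
  · -- two fixed points: a subgroup of prime order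
    push Not at hfix
    obtain ⟨u, v, hu, hv, huv⟩ := hfix
    have hbuv : gn u.1 v.1 < p ^ 2 := not_le.1 (h3 u v huv hu hv)
    obtain ⟨hq, hzu⟩ := gn_small hp (hT1 u) hbuv
    obtain ⟨-, hzv⟩ := gn_small hp (hT1 v) (by rw [gn_comm]; exact hbuv)
    set q := gn u.1 v.1 with hqdef
    set C : Subgroup Γ := Subgroup.closure {u.1, v.1} with hC
    have hzv' : Subgroup.zpowers v.1 = C := by rw [hzv, Set.pair_comm]
    have hCq : Nat.card C = q := rfl
    have hq1 : 1 < q := hq.one_lt
    -- elements of C generate C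
    have hgen : ∀ k : T, k.1 ∈ C → Subgroup.zpowers k.1 = C := by
      intro k hk
      have e1 : Subgroup.zpowers k.1 ≤ C := Subgroup.zpowers_le.2 hk
      have e2 : orderOf k.1 ∣ q := by
        rw [← hCq, ← Nat.card_zpowers]
        exact Subgroup.card_dvd_of_le e1
      have e3 : orderOf k.1 = q := by
        rcases (Nat.dvd_prime hq).1 e2 with e4 | e4
        · exact absurd (orderOf_eq_one_iff.1 e4) (hT1 k)
        · exact e4
      apply Subgroup.eq_of_le_of_card_ge e1
      rw [hCq, Nat.card_zpowers, e3]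
    have hinC : ∀ (w k : T), Subgroup.zpowers w.1 = C → gn w.1 k.1 < p ^ 2 → k.1 ∈ C := by
      intro w k hw hk
      obtain ⟨-, e1⟩ := gn_small hp (hT1 w) hk
      rw [← hw, e1]
      exact Subgroup.subset_closure (by simp)
    have hfixC : ∀ w, π w = w → w.1 ∈ C := by
      intro w hw
      by_cases hwu : w = u
      · rw [hwu]; exact Subgroup.subset_closure (by simp)
      · exact hinC u w hzu (not_le.1 (h3 u w (Ne.symm hwu) hu hw))
    have hor : ∀ k, π k ≠ k → k.1 ∈ C ∨ (π k).1 ∈ C := by
      intro k hk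
      by_cases hg : p ^ 2 ≤ gn u.1 k.1
      · exact Or.inr (hinC v (π k) hzv' (not_le.1 (h4 u v k huv hu hv hk hg)))
      · exact Or.inl (hinC u k hzu (not_le.1 hg))
    have hnand : ∀ k, π k ≠ k → k.1 ∈ C → (π k).1 ∉ C := by
      intro k hk hkC hkC'
      have e1 : gn k.1 (π k).1 ≤ q := by
        rw [← hCq]
        refine Subgroup.card_le_of_le ?_
        rw [Subgroup.closure_le]
        rintro x (rfl | hx)
        · exact hkC
        · rw [Set.mem_singleton_iff] at hx
          rw [hx]; exact hkC'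
      have e2 := h2 k hk
      omega
    have hbig : ∀ k, π k ≠ k → k.1 ∈ C → 2 * q ≤ gn k.1 (π k).1 := by
      intro k hk hkC
      have e1 : C ≤ Subgroup.closure {k.1, (π k).1} := by
        rw [← hgen k hkC]
        exact Subgroup.zpowers_le.2 (Subgroup.subset_closure (by simp))
      have e2 : q ∣ gn k.1 (π k).1 := by
        rw [← hCq]
        exact Subgroup.card_dvd_of_le e1
      obtain ⟨j, hj⟩ := e2
      have e3 : j ≠ 1 := by
        rintro rfl
        rw [mul_one] at hj
        have e4 : C = Subgroup.closure {k.1, (π k).1} := by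
          apply Subgroup.eq_of_le_of_card_ge e1
          rw [hCq]
          exact hj.le
        apply hnand k hk hkC
        rw [e4]
        exact Subgroup.subset_closure (by simp)
      have e5 : j ≠ 0 := by
        rintro rfl
        have := gn_pos k.1 (π k).1
        omega
      rw [hj, mul_comm]
      exact Nat.mul_le_mul_left q (by omega)
    -- the load
    set A : Finset T := univ.filter (fun k : T => k.1 ∈ C) with hA
    have hFsym : ∀ k : T, (2 : ℝ) / gn (π k).1 (π (π k)).1 = 2 / gn k.1 (π k).1 := by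
      intro k
      rw [h1, gn_comm]
    have hsplit : ∑ k : T, (2 : ℝ) / gn k.1 (π k).1 =
        ∑ k ∈ A, (2 : ℝ) / gn k.1 (π k).1 +
          ∑ k ∈ univ.filter (fun k : T => ¬ k.1 ∈ C), (2 : ℝ) / gn k.1 (π k).1 :=
      (sum_filter_add_sum_filter_not univ (fun k : T => k.1 ∈ C) _).symm
    have hre : ∑ k ∈ univ.filter (fun k : T => ¬ k.1 ∈ C), (2 : ℝ) / gn k.1 (π k).1 ≤
        ∑ k ∈ A, if π k = k then 0 else (2 : ℝ) / gn k.1 (π k).1 := by
      have e1 : ∑ k ∈ univ.filter (fun k : T => ¬ k.1 ∈ C), (2 : ℝ) / gn k.1 (π k).1 =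
          ∑ k ∈ (univ.filter (fun k : T => ¬ k.1 ∈ C)).image π,
            if π k = k then 0 else (2 : ℝ) / gn k.1 (π k).1 := by
        rw [sum_image (fun a _ b _ h => π.injective h)]
        refine sum_congr rfl fun k hk => ?_
        have hkC := (mem_filter.1 hk).2
        have hne : π k ≠ k := fun h => hkC (hfixC k h)
        rw [if_neg (by rw [h1]; exact fun h => hne h.symm), hFsym]
      rw [e1]
      refine sum_le_sum_of_subset_of_nonneg ?_ ?_
      · intro l hl
        obtain ⟨k, hk, rfl⟩ := mem_image.1 hl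
        have hkC := (mem_filter.1 hk).2
        have hne : π k ≠ k := fun h => hkC (hfixC k h)
        rw [hA, mem_filter]
        exact ⟨mem_univ _, (hor k hne).resolve_left hkC⟩
      · intro k _ _
        split_ifs
        · exact le_rfl
        · positivity
    have hq0 : (0 : ℝ) < q := by exact_mod_cast hq.pos
    have hterm : ∀ k ∈ A, (2 : ℝ) / gn k.1 (π k).1 +
        (if π k = k then 0 else (2 : ℝ) / gn k.1 (π k).1) ≤ 2 / q := by
      intro k hk
      have hkC := (mem_filter.1 hk).2
      split_ifs with h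
      · rw [h, gn_self, add_zero]
        have e1 : orderOf k.1 = q := by
          rw [← Nat.card_zpowers, hgen k hkC]
          exact hCq
        rw [e1]
      · have e1 := hbig k h hkC
        have e2 : (2 : ℝ) / gn k.1 (π k).1 ≤ 2 / (2 * q) :=
          div_le_div_of_nonneg_left (by norm_num) (by positivity) (by exact_mod_cast e1)
        have e3 : (2 : ℝ) / (2 * q) + 2 / (2 * q) = 2 / q := by
          field_simp
          norm_num
        linarith
    have hcardA : 2 * A.card + 1 ≤ q := by
      have hsub : ((insert 1 ((A.image Subtype.val) ∪ (A.image Subtype.val).image (fun x => x⁻¹)) :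
          Finset Γ) : Set Γ) ⊆ (C : Set Γ) := by
        intro x hx
        rw [mem_coe, mem_insert, mem_union] at hx
        rcases hx with rfl | h | h
        · exact one_mem _
        · obtain ⟨k, hk, rfl⟩ := mem_image.1 h
          exact (mem_filter.1 hk).2
        · obtain ⟨y, hy, rfl⟩ := mem_image.1 h
          obtain ⟨k, hk, rfl⟩ := mem_image.1 hy
          exact inv_mem (mem_filter.1 hk).2
      have e1 := Set.ncard_le_ncard hsub (Set.toFinite _)
      rw [Set.ncard_coe_finset] at e1
      have e2 : (C : Set Γ).ncard = q := by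
        rw [← hCq]; rfl
      have hAT : ∀ x ∈ A.image Subtype.val, x ∈ T := by
        intro x hx
        obtain ⟨k, -, rfl⟩ := mem_image.1 hx
        exact k.2
      have hdis : Disjoint (A.image Subtype.val) ((A.image Subtype.val).image (fun x => x⁻¹)) := by
        rw [Finset.disjoint_left]
        intro x hx hx'
        obtain ⟨y, hy, rfl⟩ := mem_image.1 hx'
        exact hT' y (hAT y hy) (hAT _ hx)
      rw [card_insert_of_notMem, card_union_of_disjoint hdis,
        card_image_of_injective _ inv_injective,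
        card_image_of_injective _ Subtype.val_injective, e2] at e1
      · omega
      · rw [mem_union]
        rintro (h | h)
        · exact hone (hTS (hAT _ h))
        · obtain ⟨y, hy, hy'⟩ := mem_image.1 h
          rw [inv_eq_one] at hy'
          exact hone (hTS (hAT _ (hy' ▸ hy)))
    calc ∑ k : T, (2 : ℝ) / gn k.1 (π k).1
        ≤ ∑ k ∈ A, ((2 : ℝ) / gn k.1 (π k).1 +
            (if π k = k then 0 else (2 : ℝ) / gn k.1 (π k).1)) := by
          rw [sum_add_distrib, hsplit]
          linarith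
      _ ≤ ∑ _k ∈ A, (2 : ℝ) / q := sum_le_sum hterm
      _ = A.card * (2 / q) := by rw [sum_const, nsmul_eq_mul]
      _ ≤ 1 := by
          rw [mul_div_assoc', div_le_one hq0]
          have : (2 * A.card + 1 : ℝ) ≤ q := by exact_mod_cast hcardA
          linarith

end Pool.Agent.Y59.LA
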