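import Mathlib

set_option autoImplicit false

/-!
Connectivity of the two factors of a twisted torus grid after the exchange of the squares of a zigzag.
-/

namespace Pool.Agent.Y59.LA

/-- The lower left corners of the exchanged squares. -/
def QQ (d g i j : ℕ) : Prop := (i + 1 < d ∧ j = i % 2) ∨ (j + 1 < g ∧ i = j % 2)

theorem QQ.symm {d g i j : ℕ} (h : QQ d g i j) : QQ g d j i := by
  rcases h with h | h
  · exact Or.inr ⟨h.1, h.2⟩
  · exact Or.inl ⟨h.1, h.2⟩

theorem QQ.lt {d g i j : ℕ} (hd : 3 ≤ d) (hg : 3 ≤ g) (h : QQ d g i j) : i + 1 < d ∧ j + 1 < g := by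
  rcases h with ⟨h1, h2⟩ | ⟨h1, h2⟩ <;> omega

theorem QQ.right {d g i j : ℕ} (h : QQ d g i j) : ¬ QQ d g i (j + 1) := by
  unfold QQ at *
  omega

theorem QQ.up {d g i j : ℕ} (h : QQ d g i j) : ¬ QQ d g (i + 1) j := by
  unfold QQ at *
  omega

/-- The arcs outside of the exchanged squares. -/
theorem arc {R : ℕ → Prop} {a b : ℕ} (h : ∀ j, a ≤ j → j < b → (R j ↔ R (j + 1))) :
    ∀ j, a ≤ j → j ≤ b → (R a ↔ R j) := by
  intro j haj
  induction j, haj using Nat.le_induction with
  | base => intro _; rfl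
  | succ n hn ih =>
    intro hb
    exact (ih (by omega)).trans (h n hn (by omega))

theorem conn {d g m : ℕ} (hd : 3 ≤ d) (hg : 3 ≤ g) (hgo : g % 2 = 1) (hgm : g ≤ m)
    (R : ℕ → ℕ → Prop)
    (hH : ∀ i j, i < d → j < m → ¬ QQ d g i j → (∀ i', i = i' + 1 → ¬ QQ d g i' j) →
      (R i j ↔ R i (j + 1)))
    (hw : ∀ i, i < d → (R i m ↔ R i 0))
    (hV : ∀ i j, QQ d g i j → (R i j ↔ R (i + 1) j) ∧ (R i (j + 1) ↔ R (i + 1) (j + 1)))
    (h0 : R 0 0) : ∀ i j, i < d → j < m → R i j := by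
  -- arcs
  have hA : ∀ i, i < d → ∀ j, g - 1 ≤ j → j ≤ m → (R i (g - 1) ↔ R i j) := by
    intro i hi
    refine arc (R := R i) fun j h1 h2 => hH i j hi h2 ?_ ?_
    · intro h
      have := h.lt hd hg
      omega
    · intro i' _ h
      have := h.lt hd hg
      omega
  have hA0 : ∀ i, i < d → (R i 0 ↔ R i (g - 1)) := by
    intro i hi
    exact ((hA i hi m (by omega) le_rfl).trans (hw i hi)).symm
  -- row 0, odd columns
  have hC : ∀ j, j % 2 = 1 → j + 1 < g → (R 0 j ↔ R 0 (j + 1)) := by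
    intro j h1 h2
    refine hH 0 j (by omega) (by omega) ?_ ?_
    · unfold QQ; omega
    · intro i' h; omega
  have hD : ∀ j, j + 1 < g → (R 0 j ↔ R 1 j) := by
    intro j h1
    rcases Nat.mod_two_eq_zero_or_one j with h2 | h2
    · exact (hV 0 j (by unfold QQ; omega)).1
    · obtain ⟨j', rfl⟩ : ∃ j', j = j' + 1 := ⟨j - 1, by omega⟩
      exact (hV 0 j' (by unfold QQ; omega)).2
  have hE : ∀ j, 1 ≤ j → j < g → (R 1 j ↔ R 2 j) := by
    intro j h0 h1
    rcases Nat.mod_two_eq_zero_or_one j with h2 | h2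
    · obtain ⟨j', rfl⟩ : ∃ j', j = j' + 1 := ⟨j - 1, by omega⟩
      exact (hV 1 j' (by unfold QQ; omega)).2
    · exact (hV 1 j (by unfold QQ; omega)).1
  have hF : ∀ j, 2 ≤ j → j % 2 = 0 → j + 1 < g → (R 2 j ↔ R 2 (j + 1)) := by
    intro j h0 h1 h2
    refine hH 2 j (by omega) (by omega) ?_ ?_
    · unfold QQ; omega
    · intro i' h
      obtain rfl : i' = 1 := by omega
      unfold QQ; omega
  have hR0 : R 0 (g - 1) := (hA0 0 (by omega)).1 h0
  have hcol : ∀ k j, j + k = g - 2 → 1 ≤ j → R 0 j ∧ R 1 j ∧ R 2 j := by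
    intro k
    induction k with
    | zero =>
      intro j h1 h2
      have h3 : R 0 (j + 1) := by
        have : j + 1 = g - 1 := by omega
        rw [this]; exact hR0
      have h4 := (hC j (by omega) (by omega)).2 h3
      have h5 := (hD j (by omega)).1 h4
      exact ⟨h4, h5, (hE j h2 (by omega)).1 h5⟩
    | succ k ih =>
      intro j h1 h2
      obtain ⟨h3, h4, h5⟩ := ih (j + 1) (by omega) (by omega)
      rcases Nat.mod_two_eq_zero_or_one j with h6 | h6
      · have h7 := (hF j (by omega) h6 (by omega)).2 h5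
        have h8 := (hE j h2 (by omega)).2 h7
        exact ⟨(hD j (by omega)).2 h8, h8, h7⟩
      · have h7 := (hC j h6 (by omega)).2 h3
        have h8 := (hD j (by omega)).1 h7
        exact ⟨h7, h8, (hE j h2 (by omega)).1 h8⟩
  have hcol' : ∀ j, 1 ≤ j → j < g - 1 → R 0 j ∧ R 1 j ∧ R 2 j := fun j h1 h2 =>
    hcol (g - 2 - j) j (by omega) h1
  have hR10 : R 1 0 := (hD 0 (by omega)).1 h0
  have hR1 : R 1 (g - 1) := (hA0 1 (by omega)).1 hR10
  have hR2 : R 2 (g - 1) := (hE (g - 1) (by omega) (by omega)).1 hR1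
  have hR20 : R 2 0 := (hA0 2 (by omega)).2 hR2
  have row : ∀ i, i < 3 → R i 0 → R i (g - 1) → ∀ j, j < m → R i j := by
    intro i hi h1 h2 j hj
    rcases Nat.eq_zero_or_pos j with rfl | h3
    · exact h1
    · rcases Nat.lt_or_ge j (g - 1) with h4 | h4
      · obtain ⟨h5, h6, h7⟩ := hcol' j h3 h4
        interval_cases i
        · exact h5
        · exact h6
        · exact h7
      · exact (hA i (by omega) j h4 hj.le).1 h2
  have main : ∀ k, k + 2 < d → ∀ j, j < m → R (k + 2) j := by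
    intro k
    induction k with
    | zero => intro _; exact row 2 (by norm_num) hR20 hR2
    | succ k ih =>
      intro hk
      have hprev := ih (by omega)
      set i := k + 2 with hi
      have h1 : k + 1 + 2 = i + 1 := by omega
      rw [h1]
      have hq : QQ d g i (i % 2) := by unfold QQ; omega
      have hv := hV i (i % 2) hq
      have h2 : R (i + 1) (i % 2) := hv.1.1 (hprev _ (by omega))
      have h3 : R (i + 1) (i % 2 + 1) := hv.2.1 (hprev _ (by omega))
      have hA2 : ∀ j, 2 ≤ j → j ≤ m → (R (i + 1) 2 ↔ R (i + 1) j) := by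
        refine arc (R := R (i + 1)) fun j h4 h5 => hH (i + 1) j (by omega) h5 ?_ ?_
        · unfold QQ; omega
        · intro i' h
          obtain rfl : i' = i := by omega
          unfold QQ; omega
      have hA20 : R (i + 1) 2 ↔ R (i + 1) 0 := (hA2 m (by omega) le_rfl).trans (hw _ (by omega))
      have h4 : R (i + 1) 0 ∧ R (i + 1) 1 ∧ R (i + 1) 2 := by
        rcases Nat.mod_two_eq_zero_or_one i with h5 | h5
        · rw [h5] at h2 h3
          exact ⟨h2, h3, hA20.2 h2⟩
        · rw [h5] at h2 h3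
          exact ⟨hA20.1 h3, h2, h3⟩
      intro j hj
      rcases Nat.lt_or_ge j 2 with h5 | h5
      · interval_cases j
        · exact h4.1
        · exact h4.2.1
      · exact (hA2 j h5 hj.le).1 h4.2.2
  intro i j hi hj
  rcases Nat.lt_or_ge i 2 with h1 | h1
  · interval_cases i
    · exact row 0 (by norm_num) h0 hR0 j hj
    · exact row 1 (by norm_num) hR10 hR1 j hj
  · obtain ⟨k, rfl⟩ : ∃ k, i = k + 2 := ⟨i - 2, by omega⟩
    exact main k hi j hj

theorem conn2 {d a M : ℕ} (hd : 3 ≤ d) (hdo : d % 2 = 1) (hda : d ≤ a) (haM : 2 * a + d ≤ M)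
    (R : ℕ → Prop)
    (hT : ∀ y, y < M → (∀ i, i + 1 < d → y ≠ i + (i % 2) * a ∧ y ≠ i + (i % 2) * a + a) →
      (R y ↔ R (y + 1)))
    (hS : ∀ i, i + 1 < d → (R (i + (i % 2) * a) ↔ R (i + (i % 2) * a + a)) ∧
      (R (i + 1 + (i % 2) * a) ↔ R (i + 1 + (i % 2) * a + a)))
    (h0 : R 0) : ∀ y, y < M → R y := by
  have key : ∀ i : ℕ, (i % 2 = 0 ∧ (i % 2) * a = 0) ∨ (i % 2 = 1 ∧ (i % 2) * a = a) := by
    intro i
    rcases Nat.mod_two_eq_zero_or_one i with h | h
    · left; rw [h]; simp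
    · right; rw [h]; simp
  -- rungs
  have hD : ∀ i, i + 1 < d → (R i ↔ R (a + i)) := by
    intro i hi
    rcases Nat.mod_two_eq_zero_or_one i with h | h
    · have h1 := (hS i hi).1
      rw [h] at h1
      have e1 : i + 0 * a = i := by omega
      have e2 : i + 0 * a + a = a + i := by omega
      rwa [e2, e1] at h1
    · obtain ⟨i', rfl⟩ : ∃ i', i = i' + 1 := ⟨i - 1, by omega⟩
      have h1 := (hS i' (by omega)).2
      have h2 : i' % 2 = 0 := by omega
      rw [h2] at h1
      have e1 : i' + 1 + 0 * a = i' + 1 := by omega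
      have e2 : i' + 1 + 0 * a + a = a + (i' + 1) := by omega
      rwa [e2, e1] at h1
  have hE : ∀ i, 1 ≤ i → i < d → (R (a + i) ↔ R (2 * a + i)) := by
    intro i h0 hi
    rcases Nat.mod_two_eq_zero_or_one i with h | h
    · obtain ⟨i', rfl⟩ : ∃ i', i = i' + 1 := ⟨i - 1, by omega⟩
      have h1 := (hS i' (by omega)).2
      have h2 : i' % 2 = 1 := by omega
      rw [h2] at h1
      have e1 : i' + 1 + 1 * a = a + (i' + 1) := by omega
      have e2 : i' + 1 + 1 * a + a = 2 * a + (i' + 1) := by omega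
      rwa [e2, e1] at h1
    · have h1 := (hS i (by omega)).1
      rw [h] at h1
      have e1 : i + 1 * a = a + i := by omega
      have e2 : i + 1 * a + a = 2 * a + i := by omega
      rwa [e2, e1] at h1
  -- intact edges
  have hC : ∀ i, i % 2 = 1 → i + 1 < d → (R i ↔ R (i + 1)) := by
    intro i h1 h2
    refine hT i (by omega) fun i' hi' => ?_
    rcases key i' with ⟨h3, h4⟩ | ⟨h3, h4⟩ <;> rw [h4] <;> omega
  have hF : ∀ i, i % 2 = 0 → i + 1 < d → (R (2 * a + i) ↔ R (2 * a + i + 1)) := by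
    intro i h1 h2
    refine hT (2 * a + i) (by omega) fun i' hi' => ?_
    rcases key i' with ⟨h3, h4⟩ | ⟨h3, h4⟩ <;> rw [h4] <;> omega
  have a1 : ∀ y, d - 1 ≤ y → y ≤ a → (R (d - 1) ↔ R y) := by
    refine arc fun y h1 h2 => hT y (by omega) fun i' hi' => ?_
    rcases key i' with ⟨h3, h4⟩ | ⟨h3, h4⟩ <;> rw [h4] <;> omega
  have a2 : ∀ y, a + d - 1 ≤ y → y ≤ 2 * a → (R (a + d - 1) ↔ R y) := by
    refine arc fun y h1 h2 => hT y (by omega) fun i' hi' => ?_
    rcases key i' with ⟨h3, h4⟩ | ⟨h3, h4⟩ <;> rw [h4] <;> omega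
  have a3 : ∀ y, 2 * a + d - 1 ≤ y → y ≤ M → (R (2 * a + d - 1) ↔ R y) := by
    refine arc fun y h1 h2 => hT y (by omega) fun i' hi' => ?_
    rcases key i' with ⟨h3, h4⟩ | ⟨h3, h4⟩ <;> rw [h4] <;> omega
  have hRa : R a := by
    have := (hD 0 (by omega)).1 h0
    simpa using this
  have hRd : R (d - 1) := (a1 a (by omega) le_rfl).2 hRa
  have hcol : ∀ k i, i + k = d - 2 → 1 ≤ i → R i ∧ R (a + i) ∧ R (2 * a + i) := by
    intro k
    induction k with
    | zero =>
      intro i h1 h2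
      have h3 : R (i + 1) := by
        have : i + 1 = d - 1 := by omega
        rw [this]; exact hRd
      have h4 := (hC i (by omega) (by omega)).2 h3
      have h5 := (hD i (by omega)).1 h4
      exact ⟨h4, h5, (hE i h2 (by omega)).1 h5⟩
    | succ k ih =>
      intro i h1 h2
      obtain ⟨h3, h4, h5⟩ := ih (i + 1) (by omega) (by omega)
      rcases Nat.mod_two_eq_zero_or_one i with h6 | h6
      · have h7 := (hF i h6 (by omega)).2 h5
        have h8 := (hE i h2 (by omega)).2 h7
        exact ⟨(hD i (by omega)).2 h8, h8, h7⟩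
      · have h7 := (hC i h6 (by omega)).2 h3
        have h8 := (hD i (by omega)).1 h7
        exact ⟨h7, h8, (hE i h2 (by omega)).1 h8⟩
  have hcol' : ∀ i, 1 ≤ i → i + 1 < d → R i ∧ R (a + i) ∧ R (2 * a + i) := fun i h1 h2 =>
    hcol (d - 2 - i) i (by omega) h1
  have hR2a : R (2 * a) := by
    have := (hF 0 (by omega) (by omega)).2 (hcol' 1 le_rfl (by omega)).2.2
    simpa using this
  have hRad : R (a + d - 1) := (a2 (2 * a) (by omega) le_rfl).2 hR2a
  have hR2ad : R (2 * a + d - 1) := by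
    have h1 : a + d - 1 = a + (d - 1) := by omega
    rw [h1] at hRad
    have h2 := (hE (d - 1) (by omega) (by omega)).1 hRad
    have h3 : 2 * a + d - 1 = 2 * a + (d - 1) := by omega
    rw [h3]; exact h2
  intro y hy
  rcases Nat.lt_or_ge y (d - 1) with h1 | h1
  · rcases Nat.eq_zero_or_pos y with rfl | h2
    · exact h0
    · exact (hcol' y h2 (by omega)).1
  rcases Nat.lt_or_ge y a with h2 | h2
  · exact (a1 y h1 h2.le).1 hRd
  rcases Nat.lt_or_ge y (a + d - 1) with h3 | h3
  · rcases Nat.eq_or_lt_of_le h2 with rfl | h4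
    · exact hRa
    · have := (hcol' (y - a) (by omega) (by omega)).2.1
      have e : a + (y - a) = y := by omega
      rwa [e] at this
  rcases Nat.lt_or_ge y (2 * a) with h4 | h4
  · exact (a2 y h3 h4.le).1 hRad
  rcases Nat.lt_or_ge y (2 * a + d - 1) with h5 | h5
  · rcases Nat.eq_or_lt_of_le h4 with rfl | h6
    · exact hR2a
    · have := (hcol' (y - 2 * a) (by omega) (by omega)).2.2
      have e : 2 * a + (y - 2 * a) = y := by omega
      rwa [e] at this
  · exact (a3 y h5 hy.le).1 hR2ad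

end Pool.Agent.Y59.LA
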