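import Pool.Agent.Y59.LA.Sw

set_option autoImplicit false

/-!
The factors of two commuting generators are connected on the cosets.
-/

namespace Pool.Agent.Y59.LA

open Finset SimpleGraph H931R3.LA Pool.Agent.W111.LAR Pool.Agent.TH486.LAC

variable {Γ : Type} [Group Γ]

theorem uniq {s t : Γ} {d : ℕ} (hdn : ∀ i, 0 < i → i < d → t ^ i ∉ Subgroup.zpowers s)
    {i i' j j' : ℕ} (hi : i < d) (hi' : i' < d) (h : t ^ i * s ^ j = t ^ i' * s ^ j') :
    i = i' ∧ s ^ j = s ^ j' := by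
  have key : ∀ i i' j j' : ℕ, i ≤ i' → i' < d → t ^ i * s ^ j = t ^ i' * s ^ j' → i = i' := by
    intro i i' j j' h1 h2 h3
    by_contra hne
    refine hdn (i' - i) (by omega) (by omega) ?_
    have h4 : t ^ (i' - i) = s ^ j * (s ^ j')⁻¹ := by
      have h5 : t ^ i' = t ^ i * t ^ (i' - i) := by rw [← pow_add]; congr 1; omega
      rw [h5, mul_assoc] at h3
      have h6 := mul_left_cancel h3
      rw [h6]; group
    rw [h4]
    exact mul_mem (pow_mem (Subgroup.mem_zpowers s) j)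
      (inv_mem (pow_mem (Subgroup.mem_zpowers s) j'))
  have h1 : i = i' := by
    rcases Nat.le_total i i' with h2 | h2
    · exact key i i' j j' h2 hi' h
    · exact (key i' i j' j h2 hi h.symm).symm
  subst h1
  exact ⟨rfl, mul_left_cancel h⟩

/-- The set-up of the grid. -/
structure Gr (s t : Γ) (d g : ℕ) (B : Γ → Γ) (q : Γ → Prop) : Prop where
  hc : Commute s t
  hd : 3 ≤ d
  hg : 3 ≤ g
  hgm : g ≤ orderOf s
  hdn : ∀ i, 0 < i → i < d → t ^ i ∉ Subgroup.zpowers s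
  hdp : t ^ d ∈ Subgroup.zpowers s
  hB1 : ∀ v, ∀ k ∈ (Subgroup.closure {s, t} : Subgroup Γ), B (v * k) = B v
  hB2 : ∀ v, ∃ k ∈ (Subgroup.closure {s, t} : Subgroup Γ), v = B v * k
  hq : ∀ v, q v ↔ ∃ i j, QQ d g i j ∧ v = B v * (t ^ i * s ^ j)

namespace Gr

variable {s t : Γ} {d g : ℕ} {B : Γ → Γ} {q : Γ → Prop}

theorem hs (_G : Gr s t d g B q) : s ∈ (Subgroup.closure {s, t} : Subgroup Γ) :=
  Subgroup.subset_closure (by simp)

theorem ht (_G : Gr s t d g B q) : t ∈ (Subgroup.closure {s, t} : Subgroup Γ) :=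
  Subgroup.subset_closure (by simp)

theorem hst (G : Gr s t d g B q) (i j : ℕ) :
    t ^ i * s ^ j ∈ (Subgroup.closure {s, t} : Subgroup Γ) :=
  mul_mem (pow_mem G.ht i) (pow_mem G.hs j)

theorem BB (G : Gr s t d g B q) (v : Γ) : B (B v) = B v := by
  obtain ⟨k, hk, hv⟩ := G.hB2 v
  have h1 := G.hB1 (B v) k hk
  rw [← hv] at h1
  exact h1.symm

/-- Coordinates of all elements. -/
theorem coord [Finite Γ] (G : Gr s t d g B q) (v : Γ) :
    ∃ i j, i < d ∧ j < orderOf s ∧ v = B v * (t ^ i * s ^ j) := by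
  obtain ⟨k, hk, hv⟩ := G.hB2 v
  obtain ⟨a, b, rfl⟩ := mem_closure_comm G.hc hk
  have hdp := G.hdp
  rw [← mem_powers_iff_mem_zpowers] at hdp
  obtain ⟨c, hc⟩ := hdp
  have hc : s ^ c = t ^ d := hc
  have h0 : 0 < orderOf s := orderOf_pos s
  have hd := G.hd
  refine ⟨a % d, (c * (a / d) + b) % orderOf s, Nat.mod_lt _ (by omega), Nat.mod_lt _ h0, ?_⟩
  rw [pow_mod_orderOf, pow_add, pow_mul, hc, ← mul_assoc (t ^ (a % d)), ← pow_mul, ← pow_add,
    Nat.mod_add_div]
  exact hv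

theorem q_iff (G : Gr s t d g B q) {r : Γ} (hr : B r = r) {i j : ℕ} (hi : i < d)
    (hj : j < orderOf s) : q (r * (t ^ i * s ^ j)) ↔ QQ d g i j := by
  have hB : B (r * (t ^ i * s ^ j)) = r := by rw [G.hB1 r _ (G.hst i j), hr]
  rw [G.hq, hB]
  constructor
  · rintro ⟨i', j', h1, h2⟩
    have h3 := h1.lt G.hd G.hg
    obtain ⟨h4, h5⟩ := uniq G.hdn hi (by omega : i' < d) (mul_left_cancel h2)
    have h6 : j = j' := pow_injOn_Iio_orderOf (Set.mem_Iio.2 hj)
      (Set.mem_Iio.2 (by have := G.hgm; omega)) h5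
    rw [h4, h6]; exact h1
  · intro h
    exact ⟨i, j, h, rfl⟩

theorem q_of (G : Gr s t d g B q) {r : Γ} (hr : B r = r) {i j : ℕ} (h : QQ d g i j) :
    q (r * (t ^ i * s ^ j)) := by
  have hB : B (r * (t ^ i * s ^ j)) = r := by rw [G.hB1 r _ (G.hst i j), hr]
  rw [G.hq, hB]
  exact ⟨i, j, h, rfl⟩

/-- The lower neighbour of a point of the grid. -/
theorem q_down (G : Gr s t d g B q) {r : Γ} (hr : B r = r) {i j : ℕ} (hi : i < d)
    (hj : j < orderOf s) (h : q (r * (t ^ i * s ^ j) * t⁻¹)) :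
    ∃ i', i = i' + 1 ∧ QQ d g i' j := by
  have hB : B (r * (t ^ i * s ^ j) * t⁻¹) = r := by
    rw [mul_assoc, G.hB1 r _ (mul_mem (G.hst i j) (inv_mem G.ht)), hr]
  rw [G.hq, hB] at h
  obtain ⟨i', j', h1, h2⟩ := h
  have h3 := h1.lt G.hd G.hg
  have h4 : r * (t ^ i * s ^ j) = r * (t ^ (i' + 1) * s ^ j') := by
    have h5 : r * (t ^ i * s ^ j) = r * (t ^ i' * s ^ j') * t := by rw [← h2]; group
    rw [h5, mul_assoc, mul_assoc, (G.hc.pow_left j').eq, ← mul_assoc (t ^ i'), ← pow_succ]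
  obtain ⟨h4, h5⟩ := uniq G.hdn hi (by omega : i' + 1 < d) (mul_left_cancel h4)
  have h6 : j = j' := pow_injOn_Iio_orderOf (Set.mem_Iio.2 hj)
    (Set.mem_Iio.2 (by have := G.hgm; omega)) h5
  exact ⟨i', h4, by rw [h6]; exact h1⟩

theorem disj_s [Finite Γ] (G : Gr s t d g B q) : Disj s q := by
  intro v h1 h2
  have hB : B (v * s⁻¹) = B v := G.hB1 v _ (inv_mem G.hs)
  rw [G.hq, hB] at h2
  obtain ⟨i, j, h3, h4⟩ := h2
  have h5 := h3.lt G.hd G.hg
  have h6 : v = B v * (t ^ i * s ^ (j + 1)) := by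
    rw [pow_succ, ← mul_assoc (t ^ i), ← mul_assoc, ← h4]; group
  rw [h6, G.q_iff (G.BB v) (by omega) (by have := G.hgm; omega)] at h1
  exact h3.right h1

theorem disj_t [Finite Γ] (G : Gr s t d g B q) : Disj t q := by
  intro v h1 h2
  obtain ⟨i, j, hi, hj, h3⟩ := G.coord v
  rw [h3] at h1 h2
  rw [G.q_iff (G.BB v) hi hj] at h1
  obtain ⟨i', rfl, h4⟩ := G.q_down (G.BB v) hi hj h2
  exact h4.up h1

/-- The factor of `s` is connected on the cosets. -/
theorem reach [Finite Γ] (G : Gr s t d g B q) (hgo : g % 2 = 1) (v : Γ) :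
    (sw s t q).Reachable (B v) v := by
  obtain ⟨i, j, hi, hj, h3⟩ := G.coord v
  have hr := G.BB v
  set r := B v with hrdef
  have key := conn (m := orderOf s) G.hd G.hg hgo G.hgm
    (fun i j => (sw s t q).Reachable r (r * (t ^ i * s ^ j)))
    (by
      intro i j hi hj h1 h2
      have h3 : (sw s t q).Reachable (r * (t ^ i * s ^ j)) (r * (t ^ i * s ^ (j + 1))) := by
        have h4 := sw_s (s := s) (t := t) (q := q) (v := r * (t ^ i * s ^ j))
          (fun h => h1 ((G.q_iff hr hi hj).1 h)) (fun h => by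
            obtain ⟨i', h5, h6⟩ := G.q_down hr hi hj h
            exact h2 i' h5 h6)
        rwa [mul_assoc, mul_assoc, ← pow_succ] at h4
      exact ⟨fun h => h.trans h3, fun h => h.trans h3.symm⟩)
    (by
      intro i _
      show (sw s t q).Reachable r (r * (t ^ i * s ^ orderOf s)) ↔
        (sw s t q).Reachable r (r * (t ^ i * s ^ 0))
      rw [pow_orderOf_eq_one, pow_zero])
    (by
      intro i j h
      have h1 := G.q_of hr h
      constructor
      · have h2 := sw_t (s := s) (t := t) (q := q) (v := r * (t ^ i * s ^ j)) (Or.inl h1)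
        have e : r * (t ^ i * s ^ j) * t = r * (t ^ (i + 1) * s ^ j) := by
          rw [mul_assoc, mul_assoc, (G.hc.pow_left j).eq, ← mul_assoc (t ^ i), ← pow_succ]
        rw [e] at h2
        exact ⟨fun h => h.trans h2, fun h => h.trans h2.symm⟩
      · have h2 := sw_t (s := s) (t := t) (q := q) (v := r * (t ^ i * s ^ (j + 1))) (Or.inr (by
          have e : r * (t ^ i * s ^ (j + 1)) * s⁻¹ = r * (t ^ i * s ^ j) := by
            rw [pow_succ]; group
          rw [e]; exact h1))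
        have e : r * (t ^ i * s ^ (j + 1)) * t = r * (t ^ (i + 1) * s ^ (j + 1)) := by
          rw [mul_assoc, mul_assoc, (G.hc.pow_left (j + 1)).eq, ← mul_assoc (t ^ i), ← pow_succ]
        rw [e] at h2
        exact ⟨fun h => h.trans h2, fun h => h.trans h2.symm⟩)
    (by
      show (sw s t q).Reachable r (r * (t ^ 0 * s ^ 0))
      simp)
  have := key i j hi hj
  rw [← h3] at this
  exact this

theorem reach2 [Finite Γ] (G : Gr s t d g B q) (hgo : g % 2 = 1) (v k : Γ)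
    (hk : k ∈ (Subgroup.closure {s, t} : Subgroup Γ)) :
    (sw s t q).Reachable v (v * k) := by
  have h1 := G.reach hgo v
  have h2 := G.reach hgo (v * k)
  rw [G.hB1 v k hk] at h2
  exact h1.symm.trans h2

theorem size [Finite Γ] (G : Gr s t d g B q) (hgo : g % 2 = 1) (v : Γ) :
    Nat.card (Subgroup.closure {s, t} : Subgroup Γ) ≤ csize (sw s t q) v :=
  csize_ge (fun v => G.reach2 hgo v s G.hs) (fun v => G.reach2 hgo v t G.ht) v

end Gr

/-- The index of a cyclic subgroup: the first power that is in the other subgroup. -/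
theorem exists_index [Finite Γ] {s t : Γ} (ht : Odd (orderOf t))
    (h : t ∉ Subgroup.zpowers s) :
    ∃ d, 3 ≤ d ∧ d % 2 = 1 ∧ d ≤ orderOf t ∧ (∀ i, 0 < i → i < d → t ^ i ∉ Subgroup.zpowers s) ∧
      t ^ d ∈ Subgroup.zpowers s ∧ ∀ e, t ^ e ∈ Subgroup.zpowers s → d ∣ e := by
  classical
  have hex : ∃ d, 0 < d ∧ t ^ d ∈ Subgroup.zpowers s :=
    ⟨orderOf t, orderOf_pos t, by rw [pow_orderOf_eq_one]; exact one_mem _⟩
  set d := Nat.find hex with hd
  obtain ⟨h1, h2⟩ := Nat.find_spec hex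
  have hmin : ∀ i, 0 < i → i < d → t ^ i ∉ Subgroup.zpowers s := fun i h3 h4 h5 =>
    Nat.find_min hex h4 ⟨h3, h5⟩
  have hall : ∀ e, t ^ e ∈ Subgroup.zpowers s → d ∣ e := by
    intro e he
    rw [Nat.dvd_iff_mod_eq_zero]
    by_contra hne
    refine hmin (e % d) (Nat.pos_of_ne_zero hne) (Nat.mod_lt _ h1) ?_
    have h4 : t ^ (e % d) * (t ^ d) ^ (e / d) = t ^ e := by
      rw [← pow_mul, ← pow_add, Nat.mod_add_div]
    rw [eq_mul_inv_of_mul_eq h4]
    exact mul_mem he (inv_mem (pow_mem h2 _))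
  have hdvd : d ∣ orderOf t := hall _ (by rw [pow_orderOf_eq_one]; exact one_mem _)
  have hodd : Odd d := Odd.of_dvd_nat ht hdvd
  have hne1 : d ≠ 1 := by
    intro h3
    rw [← hd, h3, pow_one] at h2
    exact h h2
  have h5 : d % 2 = 1 := Nat.odd_iff.1 hodd
  exact ⟨d, by omega, h5, Nat.le_of_dvd (orderOf_pos t) hdvd, hmin, h2, hall⟩

end Pool.Agent.Y59.LA
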