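import Pool.Agent.Y59.LA.Grid

set_option autoImplicit false

/-!
The Cayley graph of two commuting elements of odd order is the union of two graphs of maximum degree
two whose components are the cosets of the subgroup generated by the two elements.
-/

namespace Pool.Agent.Y59.LA

open Finset SimpleGraph H931R3.LA Pool.Agent.W111.LAR Pool.Agent.TH486.LAC

variable {Γ : Type} [Group Γ]

/-- Neither element generates the other one. -/
theorem pd_two [Finite Γ] {s t : Γ} (hc : Commute s t) (hs : Odd (orderOf s))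
    (ht : Odd (orderOf t)) (h1 : t ∉ Subgroup.zpowers s) (h2 : s ∉ Subgroup.zpowers t) :
    PD s t (Nat.card (Subgroup.closure {s, t} : Subgroup Γ)) := by
  obtain ⟨d, hd3, hdo, hdt, hdn, hdp, _⟩ := exists_index ht h1
  obtain ⟨g, hg3, hgo, hgs, hgn, hgp, _⟩ := exists_index hs h2
  obtain ⟨B, hB1, hB2⟩ := exists_base (Subgroup.closure {s, t} : Subgroup Γ)
  let q : Γ → Prop := fun v => ∃ i j, QQ d g i j ∧ v = B v * (t ^ i * s ^ j)
  have G : Gr s t d g B q := ⟨hc, hd3, hg3, hgs, hdn, hdp, hB1, hB2, fun v => Iff.rfl⟩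
  have hcl : (Subgroup.closure {t, s} : Subgroup Γ) = Subgroup.closure {s, t} := by
    rw [Set.pair_comm]
  have G' : Gr t s g d B q := by
    refine ⟨hc.symm, hg3, hd3, hdt, hgn, hgp, by rwa [hcl], by rwa [hcl], fun v => ?_⟩
    constructor
    · rintro ⟨i, j, h3, h4⟩
      exact ⟨j, i, h3.symm, by rw [(hc.pow_pow j i).eq]; exact h4⟩
    · rintro ⟨i, j, h3, h4⟩
      exact ⟨j, i, h3.symm, by rw [← (hc.pow_pow i j).eq]; exact h4⟩
  have h5 := G'.size hdo
  rw [hcl] at h5
  exact ⟨sw s t q, sw t s q, sw_deg hc G.disj_t, sw_deg hc.symm G.disj_s, G.size hgo, h5,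
    sw_sup s t q⟩

/-- The case of a cyclic group generated by the second element. -/
theorem pd_cyc [Finite Γ] {s t : Γ} (hs : Odd (orderOf s)) (ht : Odd (orderOf t)) {a : ℕ}
    (ha : t ^ a = s) (ha0 : 0 < a) (haM : 2 * a < orderOf t) (h1 : t ∉ Subgroup.zpowers s) :
    PD s t (Nat.card (Subgroup.closure {s, t} : Subgroup Γ)) := by
  have hc : Commute s t := by rw [← ha]; exact Commute.pow_self t a
  obtain ⟨d, hd3, hdo, hdt, hdn, hdp, hall⟩ := exists_index ht h1
  obtain ⟨B, hB1, hB2⟩ := exists_base (Subgroup.closure {s, t} : Subgroup Γ)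
  set M := orderOf t with hM
  have hs1 : orderOf s ≠ 1 := by
    intro h
    rw [orderOf_eq_one_iff] at h
    rw [h] at ha
    have := orderOf_dvd_of_pow_eq_one ha
    have := Nat.le_of_dvd ha0 this
    omega
  have hs3 : 3 ≤ orderOf s := by
    obtain ⟨k, hk⟩ := hs
    omega
  let q : Γ → Prop := fun v => ∃ i j, QQ d 3 i j ∧ v = B v * (t ^ i * s ^ j)
  have G : Gr s t d 3 B q := ⟨hc, hd3, le_rfl, hs3, hdn, hdp, hB1, hB2, fun v => Iff.rfl⟩
  have hda : d ∣ a := hall a (by rw [ha]; exact Subgroup.mem_zpowers s)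
  have hdM : d ∣ M := hall M (by rw [pow_orderOf_eq_one]; exact one_mem _)
  have hda' : d ≤ a := Nat.le_of_dvd ha0 hda
  have hdM' : 2 * a + d ≤ M := by
    have h2 : d ∣ M - 2 * a := Nat.dvd_sub hdM (Dvd.dvd.mul_left hda 2)
    have h3 := Nat.le_of_dvd (by omega) h2
    omega
  have hst : ∀ i j, t ^ i * s ^ j = t ^ (i + j * a) := by
    intro i j
    rw [← ha, ← pow_mul, ← pow_add]
    congr 1; ring
  have hQ : ∀ i j, QQ d 3 i j → i + 1 < d ∧ j = i % 2 := by
    intro i j h
    unfold QQ at h
    omega
  have hQ' : ∀ i, i + 1 < d → QQ d 3 i (i % 2) := fun i hi => Or.inl ⟨hi, rfl⟩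
  have hmul : ∀ i, i % 2 * a ≤ a := by
    intro i
    rcases Nat.mod_two_eq_zero_or_one i with h | h <;> rw [h] <;> omega
  have hcong : ∀ x y, x < M → y < M → t ^ x = t ^ y → x = y := fun x y hx hy h =>
    pow_injOn_Iio_orderOf (Set.mem_Iio.2 hx) (Set.mem_Iio.2 hy) h
  have hreach : ∀ v, (sw t s q).Reachable (B v) v := by
    intro v
    have hr := G.BB v
    obtain ⟨i0, j0, -, -, h3⟩ := G.coord v
    rw [hst] at h3
    set r := B v with hrdef
    have hBt : ∀ n, B (r * t ^ n) = r := by
      intro n
      rw [hB1 r _ (pow_mem G.ht n), hr]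
    have key := conn2 (d := d) (a := a) (M := M) hd3 hdo hda' hdM'
      (fun y => (sw t s q).Reachable r (r * t ^ y))
      (by
        intro y hy h
        have h4 : (sw t s q).Reachable (r * t ^ y) (r * t ^ (y + 1)) := by
          have h5 := sw_s (s := t) (t := s) (q := q) (v := r * t ^ y)
            (by
              rintro ⟨i, j, h6, h7⟩
              obtain ⟨h8, rfl⟩ := hQ i j h6
              rw [hBt, hst] at h7
              have h9 := hmul i
              exact (h i h8).1 (hcong _ _ hy (by omega) (mul_left_cancel h7)))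
            (by
              rintro ⟨i, j, h6, h7⟩
              obtain ⟨h8, rfl⟩ := hQ i j h6
              have hB' : B (r * t ^ y * s⁻¹) = r := by
                rw [mul_assoc, hB1 r _ (mul_mem (pow_mem G.ht y) (inv_mem G.hs)), hr]
              rw [hB', hst] at h7
              have h9 := hmul i
              have h10 : r * t ^ y = r * t ^ (i + i % 2 * a + a) := by
                have : r * t ^ y = r * t ^ (i + i % 2 * a) * s := by rw [← h7]; group
                rw [this, ← ha, mul_assoc, ← pow_add]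
              exact (h i h8).2 (hcong _ _ hy (by omega) (mul_left_cancel h10)))
          rwa [mul_assoc, ← pow_succ] at h5
        exact ⟨fun h => h.trans h4, fun h => h.trans h4.symm⟩)
      (by
        intro i hi
        have h4 : q (r * t ^ (i + i % 2 * a)) :=
          ⟨i, i % 2, hQ' i hi, by rw [hBt, hst]⟩
        constructor
        · have h5 := sw_t (s := t) (t := s) (q := q) (v := r * t ^ (i + i % 2 * a)) (Or.inl h4)
          have e : r * t ^ (i + i % 2 * a) * s = r * t ^ (i + i % 2 * a + a) := by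
            rw [← ha, mul_assoc, ← pow_add]
          rw [e] at h5
          exact ⟨fun h => h.trans h5, fun h => h.trans h5.symm⟩
        · have h5 := sw_t (s := t) (t := s) (q := q) (v := r * t ^ (i + 1 + i % 2 * a)) (Or.inr (by
            have e : r * t ^ (i + 1 + i % 2 * a) * t⁻¹ = r * t ^ (i + i % 2 * a) := by
              have : i + 1 + i % 2 * a = (i + i % 2 * a) + 1 := by ring
              rw [this, pow_succ]; group
            rw [e]; exact h4))
          have e : r * t ^ (i + 1 + i % 2 * a) * s = r * t ^ (i + 1 + i % 2 * a + a) := by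
            rw [← ha, mul_assoc, ← pow_add]
          rw [e] at h5
          exact ⟨fun h => h.trans h5, fun h => h.trans h5.symm⟩)
      (by
        show (sw t s q).Reachable r (r * t ^ 0)
        simp)
    have h4 := key ((i0 + j0 * a) % M) (Nat.mod_lt _ (orderOf_pos t))
    have h5 : t ^ ((i0 + j0 * a) % M) = t ^ (i0 + j0 * a) := by rw [hM, pow_mod_orderOf]
    have h4 : (sw t s q).Reachable r (r * t ^ ((i0 + j0 * a) % M)) := h4
    rw [h5, ← h3] at h4
    exact h4
  have hreach2 : ∀ v, ∀ k ∈ (Subgroup.closure {s, t} : Subgroup Γ),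
      (sw t s q).Reachable v (v * k) := by
    intro v k hk
    have h2 := hreach (v * k)
    rw [hB1 v k hk] at h2
    exact (hreach v).symm.trans h2
  exact ⟨sw s t q, sw t s q, sw_deg hc G.disj_t, sw_deg hc.symm G.disj_s, G.size (by norm_num),
    csize_ge (fun v => hreach2 v s G.hs) (fun v => hreach2 v t G.ht), sw_sup s t q⟩

theorem pd_cyc' [Finite Γ] {s t : Γ} (hs : Odd (orderOf s)) (ht : Odd (orderOf t)) (hs1 : s ≠ 1)
    (h2 : s ∈ Subgroup.zpowers t) (h1 : t ∉ Subgroup.zpowers s) :
    PD s t (Nat.card (Subgroup.closure {s, t} : Subgroup Γ)) := by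
  rw [← mem_powers_iff_mem_zpowers] at h2
  obtain ⟨a', ha'⟩ := h2
  have ha' : t ^ a' = s := ha'
  have hM0 : 0 < orderOf t := orderOf_pos t
  obtain ⟨a, ha, haM, ha0⟩ : ∃ a, t ^ a = s ∧ a < orderOf t ∧ 0 < a := by
    refine ⟨a' % orderOf t, by rw [pow_mod_orderOf]; exact ha', Nat.mod_lt _ hM0, ?_⟩
    rcases Nat.eq_zero_or_pos (a' % orderOf t) with h | h
    · exfalso
      apply hs1
      rw [← ha', ← pow_mod_orderOf, h, pow_zero]
    · exact h
  rcases Nat.lt_or_ge (2 * a) (orderOf t) with h | h
  · exact pd_cyc hs ht ha ha0 h h1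
  · have hne : 2 * a ≠ orderOf t := by
      intro h3
      rw [← h3] at ht
      obtain ⟨k, hk⟩ := ht
      omega
    apply PD.inv
    have hcl : (Subgroup.closure {s⁻¹, t} : Subgroup Γ) = Subgroup.closure {s, t} := by
      apply le_antisymm
      · rw [Subgroup.closure_le]
        rintro x (rfl | hx)
        · exact inv_mem (Subgroup.subset_closure (by simp))
        · rw [Set.mem_singleton_iff] at hx
          rw [hx]; exact Subgroup.subset_closure (by simp)
      · rw [Subgroup.closure_le]
        rintro x (rfl | hx)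
        · rw [← inv_inv x]
          exact inv_mem (Subgroup.subset_closure (by simp))
        · rw [Set.mem_singleton_iff] at hx
          rw [hx]; exact Subgroup.subset_closure (by simp)
    rw [← hcl]
    refine pd_cyc (a := orderOf t - a) (by rwa [orderOf_inv]) ht ?_ (by omega) (by omega)
      (by rwa [Subgroup.zpowers_inv])
    rw [eq_inv_iff_mul_eq_one, ← ha, ← pow_add, Nat.sub_add_cancel haM.le, pow_orderOf_eq_one]

/-- Two commuting elements of odd order. -/
theorem pd_comm [Finite Γ] {s t : Γ} (hc : Commute s t) (hs : Odd (orderOf s))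
    (ht : Odd (orderOf t)) (hs1 : s ≠ 1) (ht1 : t ≠ 1) :
    PD s t (Nat.card (Subgroup.closure {s, t} : Subgroup Γ)) := by
  by_cases h1 : t ∈ Subgroup.zpowers s
  · by_cases h2 : s ∈ Subgroup.zpowers t
    · have e : Subgroup.zpowers s = Subgroup.zpowers t :=
        le_antisymm (Subgroup.zpowers_le.2 h2) (Subgroup.zpowers_le.2 h1)
      have hcl : (Subgroup.closure {s, t} : Subgroup Γ) ≤ Subgroup.zpowers s := by
        rw [Subgroup.closure_le]
        rintro x (rfl | hx)
        · exact Subgroup.mem_zpowers _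
        · rw [Set.mem_singleton_iff] at hx
          rw [hx]; exact h1
      have h3 : Nat.card (Subgroup.closure {s, t} : Subgroup Γ) ≤ orderOf s := by
        rw [← Nat.card_zpowers]
        exact Subgroup.card_le_of_le hcl
      have h4 : orderOf t = orderOf s := by
        rw [← Nat.card_zpowers, ← Nat.card_zpowers, e]
      exact pd_simple hs1 ht1 h3 (by rw [h4]; exact h3)
    · have h3 := (pd_cyc' ht hs ht1 h1 h2).comm
      rwa [Set.pair_comm] at h3
  · by_cases h2 : s ∈ Subgroup.zpowers t
    · exact pd_cyc' hs ht hs1 h2 h1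
    · exact pd_two hc hs ht h1 h2

end Pool.Agent.Y59.LA
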