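import Pool.Agent.Y59.LA.Conn
import Pool.Agent.TH486.LAC.Lift
import Pool.Agent.W111.LAR.Cay2

set_option autoImplicit false

/-!
The Cayley graph of two commuting generators: exchange of squares.
-/

namespace Pool.Agent.Y59.LA

open Finset SimpleGraph H931R3.LA Pool.Agent.W111.LAR Pool.Agent.TH486.LAC

variable {Γ : Type} [Group Γ]

/-- The factor of `s` after the exchange of the squares `v, v s, v t, v s t` with `q v`. -/
def sw (s t : Γ) (q : Γ → Prop) : SimpleGraph Γ where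
  Adj v w := v ≠ w ∧
    ((w = v * s ∧ ¬ q v ∧ ¬ q (v * t⁻¹)) ∨ (v = w * s ∧ ¬ q w ∧ ¬ q (w * t⁻¹)) ∨
     (w = v * t ∧ (q v ∨ q (v * s⁻¹))) ∨ (v = w * t ∧ (q w ∨ q (w * s⁻¹))))
  symm.symm v w h := ⟨h.1.symm, by tauto⟩
  loopless.irrefl v h := h.1 rfl

/-- Pairs of squares have no common edge. -/
def Disj (s : Γ) (q : Γ → Prop) : Prop := ∀ v, q v → ¬ q (v * s⁻¹)

open Classical in
theorem sw_deg {s t : Γ} [Finite Γ] (hc : Commute s t) {q : Γ → Prop} (hq : Disj t q) (v : Γ) :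
    ((sw s t q).neighborSet v).ncard ≤ 2 := by
  have hsub : (sw s t q).neighborSet v ⊆
      {(if q v then v * t else if q (v * t⁻¹) then v * t⁻¹ else v * s),
        (if q (v * s⁻¹) then v * t else if q (v * s⁻¹ * t⁻¹) then v * t⁻¹ else v * s⁻¹)} := by
    intro w hw
    have hcomm : v * t⁻¹ * s⁻¹ = v * s⁻¹ * t⁻¹ := by
      rw [mul_assoc, mul_assoc, (hc.inv_inv).eq]
    rcases hw with ⟨_, ⟨h1, h2, h3⟩ | ⟨h1, h2, h3⟩ | ⟨h1, h2 | h2⟩ | ⟨h1, h2 | h2⟩⟩
    · left
      rw [if_neg h2, if_neg h3]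
      exact h1
    · right
      have h4 : w = v * s⁻¹ := by rw [h1]; group
      rw [Set.mem_singleton_iff, ← h4, if_neg h2, if_neg h3]
    · left
      rw [if_pos h2]
      exact h1
    · right
      rw [Set.mem_singleton_iff, if_pos h2]
      exact h1
    · left
      have h4 : w = v * t⁻¹ := by rw [h1]; group
      rw [h4] at h2
      rw [if_neg (fun h => hq v h h2), if_pos h2]
      exact h4
    · right
      have h4 : w = v * t⁻¹ := by rw [h1]; group
      rw [h4, hcomm] at h2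
      rw [Set.mem_singleton_iff, if_neg (fun h => hq _ h h2), if_pos h2]
      exact h4
  refine le_trans (Set.ncard_le_ncard hsub (Set.toFinite _)) ?_
  exact Set.ncard_insert_le _ _ |>.trans (by simp)

theorem sw_sup (s t : Γ) (q : Γ → Prop) : sw s t q ⊔ sw t s q = pgr s t := by
  classical
  ext v w
  rw [sup_adj]
  constructor
  · rintro (⟨h0, h⟩ | ⟨h0, h⟩)
    · exact ⟨h0, by tauto⟩
    · exact ⟨h0, by tauto⟩
  · rintro ⟨h0, h | h | h | h⟩
    · by_cases h1 : q v ∨ q (v * t⁻¹)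
      · right
        exact ⟨h0, by tauto⟩
      · left
        exact ⟨h0, by tauto⟩
    · by_cases h1 : q v ∨ q (v * s⁻¹)
      · left
        exact ⟨h0, by tauto⟩
      · right
        exact ⟨h0, by tauto⟩
    · by_cases h1 : q w ∨ q (w * t⁻¹)
      · right
        exact ⟨h0, by tauto⟩
      · left
        exact ⟨h0, by tauto⟩
    · by_cases h1 : q w ∨ q (w * s⁻¹)
      · left
        exact ⟨h0, by tauto⟩
      · right
        exact ⟨h0, by tauto⟩

theorem sw_s {s t : Γ} {q : Γ → Prop} {v : Γ} (h1 : ¬ q v) (h2 : ¬ q (v * t⁻¹)) :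
    (sw s t q).Reachable v (v * s) := by
  by_cases h : v = v * s
  · rw [← h]
  · exact SimpleGraph.Adj.reachable ⟨h, Or.inl ⟨rfl, h1, h2⟩⟩

theorem sw_t {s t : Γ} {q : Γ → Prop} {v : Γ} (h1 : q v ∨ q (v * s⁻¹)) :
    (sw s t q).Reachable v (v * t) := by
  by_cases h : v = v * t
  · rw [← h]
  · exact SimpleGraph.Adj.reachable ⟨h, Or.inr (Or.inr (Or.inl ⟨rfl, h1⟩))⟩

/-- The component of `v` contains the coset. -/
theorem csize_ge [Finite Γ] {s t : Γ} {P : SimpleGraph Γ} (hs : ∀ v, P.Reachable v (v * s))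
    (ht : ∀ v, P.Reachable v (v * t)) (v : Γ) :
    Nat.card (Subgroup.closure {s, t} : Subgroup Γ) ≤ csize P v := by
  have h1 : ∀ x ∈ (Subgroup.closure {s, t} : Subgroup Γ), ∀ g : Γ,
      P.Reachable g (g * x) := by
    intro x hx
    refine Subgroup.closure_induction (p := fun x _ => ∀ g : Γ, P.Reachable g (g * x))
      ?_ ?_ ?_ ?_ hx
    · rintro x (rfl | hx) g
      · exact hs g
      · rw [Set.mem_singleton_iff] at hx
        subst hx
        exact ht g
    · intro g; simp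
    · intro x y _ _ hx hy g
      rw [← mul_assoc]
      exact (hx g).trans (hy (g * x))
    · intro x _ hx g
      have := hx (g * x⁻¹)
      rw [inv_mul_cancel_right] at this
      exact this.symm
  have h2 : (fun x => v * x) '' ((Subgroup.closure {s, t} : Subgroup Γ) : Set Γ) ⊆
      {h | P.Reachable v h} := by
    rintro _ ⟨x, hx, rfl⟩
    exact h1 x hx v
  have h3 := Set.ncard_le_ncard h2 (Set.toFinite _)
  rw [Set.ncard_image_of_injective _ (mul_right_injective v)] at h3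
  exact h3

/-- The Cayley graph of `{s, t}` is the union of two graphs of maximum degree two all whose
components have at least `n` vertices. -/
def PD (s t : Γ) (n : ℕ) : Prop :=
  ∃ P Q : SimpleGraph Γ, (∀ v, (P.neighborSet v).ncard ≤ 2) ∧ (∀ v, (Q.neighborSet v).ncard ≤ 2) ∧
    (∀ v, n ≤ csize P v) ∧ (∀ v, n ≤ csize Q v) ∧ P ⊔ Q = pgr s t

theorem PD.comm {s t : Γ} {n : ℕ} (h : PD s t n) : PD t s n := by
  obtain ⟨P, Q, h1, h2, h3, h4, h5⟩ := h
  refine ⟨Q, P, h2, h1, h4, h3, ?_⟩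
  rw [sup_comm, h5]
  ext v w
  show _ ∧ _ ↔ _ ∧ _
  tauto

theorem PD.mono {s t : Γ} {n m : ℕ} (h : PD s t n) (hm : m ≤ n) : PD s t m := by
  obtain ⟨P, Q, h1, h2, h3, h4, h5⟩ := h
  exact ⟨P, Q, h1, h2, fun v => hm.trans (h3 v), fun v => hm.trans (h4 v), h5⟩

theorem PD.inv {s t : Γ} {n : ℕ} (h : PD s⁻¹ t n) : PD s t n := by
  obtain ⟨P, Q, h1, h2, h3, h4, h5⟩ := h
  refine ⟨P, Q, h1, h2, h3, h4, ?_⟩
  rw [h5]
  ext v w
  have e1 : w = v * s⁻¹ ↔ v = w * s := by
    constructor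
    · rintro rfl; group
    · rintro rfl; group
  have e2 : v = w * s⁻¹ ↔ w = v * s := by
    constructor
    · rintro rfl; group
    · rintro rfl; group
  show _ ∧ (_ ∨ _ ∨ _ ∨ _) ↔ _ ∧ (_ ∨ _ ∨ _ ∨ _)
  rw [e1, e2]
  tauto

/-- Generators of large order. -/
theorem pd_simple [Finite Γ] {s t : Γ} (hs : s ≠ 1) (ht : t ≠ 1) {n : ℕ} (h1 : n ≤ orderOf s)
    (h2 : n ≤ orderOf t) : PD s t n := by
  refine ⟨gen s hs, gen t ht, gen_deg s hs, gen_deg t ht, fun v => h1.trans (gen_size s hs v),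
    fun v => h2.trans (gen_size t ht v), ?_⟩
  ext v w
  rw [sup_adj]
  constructor
  · rintro (h | h)
    · refine ⟨h.ne, ?_⟩
      rcases h with h | h <;> tauto
    · refine ⟨h.ne, ?_⟩
      rcases h with h | h <;> tauto
  · rintro ⟨_, h | h | h | h⟩
    · exact Or.inl (Or.inl h)
    · exact Or.inr (Or.inl h)
    · exact Or.inl (Or.inr h)
    · exact Or.inr (Or.inr h)

/-- Powers of two commuting elements. -/
theorem mem_closure_comm [Finite Γ] {s t : Γ} (hc : Commute s t) {x : Γ}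
    (hx : x ∈ (Subgroup.closure {s, t} : Subgroup Γ)) : ∃ i j : ℕ, x = t ^ i * s ^ j := by
  refine Subgroup.closure_induction (p := fun x _ => ∃ i j : ℕ, x = t ^ i * s ^ j) ?_ ?_ ?_ ?_ hx
  · rintro x (rfl | hx)
    · exact ⟨0, 1, by simp⟩
    · rw [Set.mem_singleton_iff] at hx
      subst hx
      exact ⟨1, 0, by simp⟩
  · exact ⟨0, 0, by simp⟩
  · rintro x y _ _ ⟨i, j, rfl⟩ ⟨i', j', rfl⟩
    refine ⟨i + i', j + j', ?_⟩
    have h1 : s ^ j * t ^ i' = t ^ i' * s ^ j := (hc.pow_pow j i').eq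
    calc t ^ i * s ^ j * (t ^ i' * s ^ j') = t ^ i * (s ^ j * t ^ i') * s ^ j' := by group
      _ = t ^ i * (t ^ i' * s ^ j) * s ^ j' := by rw [h1]
      _ = _ := by rw [pow_add, pow_add]; group
  · rintro x _ ⟨i, j, rfl⟩
    have h1 : Commute (t ^ i) (s ^ j) := (hc.pow_pow j i).symm
    set x := t ^ i * s ^ j with hx
    have h2 : x⁻¹ = x ^ (orderOf x - 1) := by
      rw [inv_eq_iff_mul_eq_one, ← pow_succ', Nat.sub_add_cancel (orderOf_pos x),
        pow_orderOf_eq_one]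
    refine ⟨i * (orderOf x - 1), j * (orderOf x - 1), ?_⟩
    rw [h2, hx, h1.mul_pow, ← pow_mul, ← pow_mul]

/-- Base points of the cosets. -/
theorem exists_base (K : Subgroup Γ) :
    ∃ B : Γ → Γ, (∀ v, ∀ k ∈ K, B (v * k) = B v) ∧ (∀ v, ∃ k ∈ K, v = B v * k) := by
  refine ⟨fun v => (Quotient.out (v : Γ ⧸ K) : Γ), ?_, ?_⟩
  · intro v k hk
    have : ((v * k : Γ) : Γ ⧸ K) = (v : Γ ⧸ K) := by
      rw [QuotientGroup.eq]
      simpa using K.inv_mem hk
    show (Quotient.out ((v * k : Γ) : Γ ⧸ K) : Γ) = _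
    rw [this]
  · intro v
    have h1 : ((Quotient.out (v : Γ ⧸ K) : Γ) : Γ ⧸ K) = (v : Γ ⧸ K) := QuotientGroup.out_eq' _
    refine ⟨(Quotient.out (v : Γ ⧸ K) : Γ)⁻¹ * v, QuotientGroup.eq.1 h1, ?_⟩
    group

end Pool.Agent.Y59.LA
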